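import Pool.Agent.Lib.MP_dbdc94_co.Defs

/-!
# Project RP: counting functions which are constant on the blocks of two partitions
-/

set_option autoImplicit false

namespace Pool.Agent.Rp

open Classical in
/-- The general form, with values in a finite type. -/
theorem cnt_sup_gen (S : Type) [Fintype S] (n : ℕ) (π σ : Setoid (Fin n)) :
    ∑ ε : Fin n → S, (if ∀ i j, π.r i j → ε i = ε j then (1 : ℝ) else 0) *
      (if ∀ i j, σ.r i j → ε i = ε j then (1 : ℝ) else 0) =
      (Fintype.card S : ℝ) ^ Nat.card (Quotient (π ⊔ σ)) := by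
  have h1 : ∀ (τ : Setoid (Fin n)) (ε : Fin n → S),
      (∀ i j, τ.r i j → ε i = ε j) ↔ τ ≤ Setoid.ker ε := fun τ ε =>
    ⟨fun h i j hij => h i j hij, fun h i j hij => h hij⟩
  have h2 : ∀ ε : Fin n → S, (if ∀ i j, π.r i j → ε i = ε j then (1 : ℝ) else 0) *
      (if ∀ i j, σ.r i j → ε i = ε j then (1 : ℝ) else 0) =
      if π ⊔ σ ≤ Setoid.ker ε then (1 : ℝ) else 0 := by
    intro ε
    simp only [h1, sup_le_iff]
    by_cases ha : π ≤ Setoid.ker ε <;> by_cases hb : σ ≤ Setoid.ker ε <;> simp [ha, hb]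
  rw [Finset.sum_congr rfl fun ε _ => h2 ε, Finset.sum_boole]
  have h3 : (Finset.univ.filter fun ε : Fin n → S => π ⊔ σ ≤ Setoid.ker ε).card =
      Nat.card (Quotient (π ⊔ σ) → S) := by
    rw [← Fintype.card_subtype, ← Nat.card_eq_fintype_card]
    exact Nat.card_congr (Setoid.liftEquiv (π ⊔ σ))
  rw [h3, Nat.card_fun, Nat.card_eq_fintype_card (α := S), Nat.cast_pow]

open Classical in
/-- The functions which are constant on the blocks of `π` and of `σ` are the functions on the
quotient by `π ⊔ σ` (`Setoid.sup_def`: generated equivalence; `Quotient.lift`). -/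
theorem cnt_sup (n q : ℕ) (π σ : Setoid (Fin n)) :
    ∑ ε : Fin n → Fin q, (if ∀ i j, π.r i j → ε i = ε j then (1 : ℝ) else 0) *
      (if ∀ i j, σ.r i j → ε i = ε j then (1 : ℝ) else 0) =
      (q : ℝ) ^ Nat.card (Quotient (π ⊔ σ)) := by
  have h := cnt_sup_gen (Fin q) n π σ
  rw [Fintype.card_fin] at h
  convert h

open Classical in
/-- the same with values in `Bool` (transport along an equivalence `Fin 2 ≃ Bool`) -/
theorem cnt_sup_bool (n : ℕ) (π σ : Setoid (Fin n)) :
    ∑ ε : Fin n → Bool, (if ∀ i j, π.r i j → ε i = ε j then (1 : ℝ) else 0) *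
      (if ∀ i j, σ.r i j → ε i = ε j then (1 : ℝ) else 0) =
      (2 : ℝ) ^ Nat.card (Quotient (π ⊔ σ)) := by
  have h := cnt_sup_gen Bool n π σ
  rw [Fintype.card_bool, Nat.cast_ofNat] at h
  convert h

end Pool.Agent.Rp
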