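import Mathlib

/-!
# Project RP (MP_dbdc94_co): definitions

Chromatic polynomials, gluing of two graphs along a linearly ordered set of common vertices,
crossless graphs, non-crossing partitions, minors, and the class `Kal` of graphs obtained by
repeated doubling (kaleidoscope).
-/

set_option autoImplicit false

open Polynomial

namespace Pool.Agent.Rp

/-- `P` is the chromatic polynomial of `G`: its value at every natural number `q` is the number of
proper colourings of `G` with `q` colours. -/
def IsChrom {V : Type} (G : SimpleGraph V) (P : ℝ[X]) : Prop :=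
  ∀ q : ℕ, P.eval (q : ℝ) = (Nat.card (G.Coloring (Fin q)) : ℝ)

/-- the inclusion of the vertices of the first graph -/
def incL (n : ℕ) (X Y : Type) : Fin n ⊕ X ↪ Fin n ⊕ (X ⊕ Y) :=
  ⟨Sum.map id Sum.inl, Function.Injective.sumMap Function.injective_id Sum.inl_injective⟩

/-- the inclusion of the vertices of the second graph -/
def incR (n : ℕ) (X Y : Type) : Fin n ⊕ Y ↪ Fin n ⊕ (X ⊕ Y) :=
  ⟨Sum.map id Sum.inr, Function.Injective.sumMap Function.injective_id Sum.inr_injective⟩

/-- The union of the graphs `N` and `U`, which have exactly the vertices `0, …, n - 1` in common.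
(If `N` and `U` are plane graphs in a disc with these vertices in this order on the boundary circle,
then it is the plane graph obtained by gluing `N` and the mirror image of `U` along the circle.) -/
def glue {n : ℕ} {X Y : Type} (N : SimpleGraph (Fin n ⊕ X)) (U : SimpleGraph (Fin n ⊕ Y)) :
    SimpleGraph (Fin n ⊕ (X ⊕ Y)) :=
  N.map (incL n X Y) ⊔ U.map (incR n X Y)

/-- `N` is crossless: if `a < b < c < d` are boundary vertices, then any walk from `a` to `c` meets
any walk from `b` to `d`. -/
def Crossless {n : ℕ} {X : Type} (N : SimpleGraph (Fin n ⊕ X)) : Prop :=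
  ∀ a b c d : Fin n, a < b → b < c → c < d →
    ∀ (p : N.Walk (Sum.inl a) (Sum.inl c)) (q : N.Walk (Sum.inl b) (Sum.inl d)),
      ∃ v, v ∈ p.support ∧ v ∈ q.support

/-- non-crossing partitions -/
def NC {n : ℕ} (π : Setoid (Fin n)) : Prop :=
  ∀ a b c d : Fin n, a < b → b < c → c < d → π.r a c → π.r b d → π.r a b

/-- `H` is a minor of `G` (branch sets). -/
def IsMinor {W V : Type} (H : SimpleGraph W) (G : SimpleGraph V) : Prop :=
  ∃ f : W → Set V, (∀ i, (G.induce (f i)).Connected) ∧ (∀ i j, i ≠ j → Disjoint (f i) (f j)) ∧
    ∀ i j, H.Adj i j → ∃ u ∈ f i, ∃ v ∈ f j, G.Adj u v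

/-- every minor of `G` with at least one vertex has a vertex of degree at most `4` -/
def NoFive {V : Type} (G : SimpleGraph V) : Prop :=
  ∀ (W : Type) [Finite W] [Nonempty W] (H : SimpleGraph W), IsMinor H G →
    ∃ w, (H.neighborSet w).ncard ≤ 4

/-- The smallest class of graphs which contains the finite graphs without a minor of minimum degree
at least `5`, is closed under isomorphism, and contains with a union `glue N U` of crossless graphs
also the double `glue N N`. -/
inductive Kal : ∀ V : Type, SimpleGraph V → Prop
  | base (V : Type) (hV : Finite V) (G : SimpleGraph V) (h : NoFive G) : Kal V G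
  | iso (V V' : Type) (G : SimpleGraph V) (G' : SimpleGraph V') (e : G ≃g G') (h : Kal V G) :
      Kal V' G'
  | double (n : ℕ) (X Y : Type) (N : SimpleGraph (Fin n ⊕ X)) (U : SimpleGraph (Fin n ⊕ Y))
      (hN : Crossless N) (hU : Crossless U) (h : Kal (Fin n ⊕ (X ⊕ Y)) (glue N U)) :
      Kal (Fin n ⊕ (X ⊕ X)) (glue N N)

end Pool.Agent.Rp
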