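import Pool.Agent.Lib.MP_dbdc94_co.Defs

/-!
# Project RP: Whitney expansion with boundary values
-/

set_option autoImplicit false

namespace Pool.Agent.Rp

variable {n : ℕ} {X : Type}

/-- the graph of a set of edges -/
abbrev sg (A : Finset (Sym2 (Fin n ⊕ X))) : SimpleGraph (Fin n ⊕ X) :=
  SimpleGraph.fromEdgeSet (A : Set (Sym2 (Fin n ⊕ X)))

/-- the partition of the boundary into the components of `A` -/
def piA (A : Finset (Sym2 (Fin n ⊕ X))) : Setoid (Fin n) :=
  (SimpleGraph.reachableSetoid (sg A)).comap Sum.inl

/-- the number of the components of `A` without a boundary vertex -/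
noncomputable def mA (A : Finset (Sym2 (Fin n ⊕ X))) : ℕ :=
  Nat.card {c : (sg A).ConnectedComponent //
    ∀ i : Fin n, (sg A).connectedComponentMk (Sum.inl i) ≠ c}

/-- the proper colourings of `N` with boundary values `ε` -/
abbrev BCol (N : SimpleGraph (Fin n ⊕ X)) (q : ℕ) (ε : Fin n → Fin q) : Type :=
  {c : Fin n ⊕ X → Fin q // (∀ a b, N.Adj a b → c a ≠ c b) ∧ ∀ i, c (Sum.inl i) = ε i}

theorem ext_reach (A : Finset (Sym2 (Fin n ⊕ X))) {q : ℕ} {c : Fin n ⊕ X → Fin q}
    (hc : ∀ a b, s(a, b) ∈ A → c a = c b) {a b : Fin n ⊕ X} (h : (sg A).Reachable a b) :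
    c a = c b := by
  obtain ⟨w⟩ := h
  induction w with
  | nil => rfl
  | cons h _ ih =>
    rw [SimpleGraph.fromEdgeSet_adj] at h
    exact (hc _ _ (by exact_mod_cast h.1)).trans ih

theorem ext_reach_of (A : Finset (Sym2 (Fin n ⊕ X))) {a b : Fin n ⊕ X} (h : s(a, b) ∈ A) :
    (sg A).Reachable a b := by
  by_cases hab : a = b
  · rw [hab]
  · refine SimpleGraph.Adj.reachable ?_
    rw [SimpleGraph.fromEdgeSet_adj]
    exact ⟨by exact_mod_cast h, hab⟩

open Classical in
/-- The number of the functions with boundary values `ε` which are constant on the components of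
`A`: they are the functions on the components (prescribed at the components which meet the boundary,
free at the others). -/
theorem cnt_A [Finite X] (A : Finset (Sym2 (Fin n ⊕ X))) (q : ℕ) (ε : Fin n → Fin q) :
    (Nat.card {c : Fin n ⊕ X → Fin q // (∀ a b, s(a, b) ∈ A → c a = c b) ∧
      ∀ i, c (Sum.inl i) = ε i} : ℝ) =
      (q : ℝ) ^ mA A * (if ∀ i j, (piA A).r i j → ε i = ε j then 1 else 0) := by
  have hr : ∀ i j, (piA A).r i j ↔ (sg A).Reachable (Sum.inl i) (Sum.inl j) := fun i j => Iff.rfl
  by_cases hε : ∀ i j, (piA A).r i j → ε i = ε j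
  · rw [if_pos hε, mul_one]
    let e : {c : Fin n ⊕ X → Fin q // (∀ a b, s(a, b) ∈ A → c a = c b) ∧
        ∀ i, c (Sum.inl i) = ε i} ≃ ({c : (sg A).ConnectedComponent //
          ∀ i : Fin n, (sg A).connectedComponentMk (Sum.inl i) ≠ c} → Fin q) :=
      { toFun := fun c k => c.1 (Quot.out k.1)
        invFun := fun f => ⟨fun v => if h : ∃ i : Fin n,
            (sg A).connectedComponentMk (Sum.inl i) = (sg A).connectedComponentMk v then
              ε h.choose else f ⟨(sg A).connectedComponentMk v, fun i hi => h ⟨i, hi⟩⟩, by
          constructor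
          · intro a b hab
            have h1 : (sg A).connectedComponentMk a = (sg A).connectedComponentMk b :=
              SimpleGraph.ConnectedComponent.sound (ext_reach_of A hab)
            simp only [h1]
          · intro i
            have h : ∃ j : Fin n, (sg A).connectedComponentMk (Sum.inl j) =
              (sg A).connectedComponentMk (Sum.inl i) := ⟨i, rfl⟩
            beta_reduce
            rw [dif_pos h]
            exact hε _ _ ((hr _ _).2 (SimpleGraph.ConnectedComponent.exact h.choose_spec))⟩
        left_inv := by
          rintro ⟨c, hc1, hc2⟩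
          apply Subtype.ext
          funext v
          change (if h : _ then _ else _) = c v
          split_ifs with h
          · rw [← hc2]
            exact ext_reach A hc1 (SimpleGraph.ConnectedComponent.exact h.choose_spec)
          · refine ext_reach A hc1 (SimpleGraph.ConnectedComponent.exact ?_)
            exact Quot.out_eq _
        right_inv := by
          intro f
          funext k
          obtain ⟨κ, hκ⟩ := k
          have h0 : (sg A).connectedComponentMk (Quot.out κ) = κ := Quot.out_eq _
          have h1 : ¬ ∃ i : Fin n, (sg A).connectedComponentMk (Sum.inl i) =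
              (sg A).connectedComponentMk (Quot.out κ) := by
            rintro ⟨i, hi⟩
            exact hκ i (hi.trans h0)
          change (if h : _ then _ else _) = _
          rw [dif_neg h1]
          congr 1
          exact Subtype.ext h0 }
    have hfin : Finite (sg A).ConnectedComponent := Quot.finite _
    rw [Nat.card_congr e, Nat.card_fun, Nat.card_eq_fintype_card (α := Fin q), Fintype.card_fin]
    push_cast
    rfl
  · rw [if_neg hε, mul_zero]
    have : IsEmpty {c : Fin n ⊕ X → Fin q // (∀ a b, s(a, b) ∈ A → c a = c b) ∧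
        ∀ i, c (Sum.inl i) = ε i} := by
      refine ⟨?_⟩
      rintro ⟨c, hc1, hc2⟩
      apply hε
      intro i j hij
      rw [← hc2, ← hc2]
      exact ext_reach A hc1 ((hr _ _).1 hij)
    rw [Nat.card_of_isEmpty, Nat.cast_zero]

end Pool.Agent.Rp
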