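import Pool.Agent.Lib.MP_dbdc94_co.Ext

/-!
# Project RP: Whitney expansion with boundary values, second part
-/

set_option autoImplicit false

namespace Pool.Agent.Rp

variable {n : ℕ} {X : Type}

/-- the edge `e` is monochromatic -/
def mono {V : Type} {q : ℕ} (c : V → Fin q) (e : Sym2 V) : Prop := (e.map c).IsDiag

theorem mono_mk {V : Type} {q : ℕ} (c : V → Fin q) (a b : V) : mono c s(a, b) ↔ c a = c b := by
  rw [mono, Sym2.map_mk]
  exact Sym2.mk_isDiag_iff

open Classical in
/-- inclusion and exclusion for one colouring -/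
theorem incl_excl {V : Type} {q : ℕ} (c : V → Fin q) (E : Finset (Sym2 V)) :
    (if ∀ e ∈ E, ¬ mono c e then (1 : ℝ) else 0) =
      ∑ A ∈ E.powerset, (-1) ^ A.card * (if ∀ e ∈ A, mono c e then (1 : ℝ) else 0) := by
  have h1 : (if ∀ e ∈ E, ¬ mono c e then (1 : ℝ) else 0) =
      ∏ e ∈ E, ((1 : ℝ) - (if mono c e then (1 : ℝ) else 0)) := by
    by_cases h : ∀ e ∈ E, ¬ mono c e
    · rw [if_pos h, eq_comm]
      refine Finset.prod_eq_one (fun e he => ?_)
      rw [if_neg (h e he), sub_zero]
    · rw [if_neg h, eq_comm]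
      push Not at h
      obtain ⟨e, he, h⟩ := h
      refine Finset.prod_eq_zero he ?_
      rw [if_pos h, sub_self]
  rw [h1, Finset.prod_sub]
  refine Finset.sum_congr rfl (fun A hA => ?_)
  rw [Finset.prod_const_one, mul_one]
  congr 1
  by_cases h : ∀ e ∈ A, mono c e
  · rw [if_pos h]
    refine Finset.prod_eq_one (fun e he => ?_)
    rw [if_pos (h e he)]
  · rw [if_neg h]
    push Not at h
    obtain ⟨e, he, h⟩ := h
    refine Finset.prod_eq_zero he ?_
    rw [if_neg h]

open Classical in
theorem card_sub_eq {T : Type} [Fintype T] (P : T → Prop) :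
    (Nat.card {c : T // P c} : ℝ) = ∑ c : T, (if P c then (1 : ℝ) else 0) := by
  rw [Nat.card_eq_fintype_card, Fintype.card_subtype, Finset.sum_boole]

open Classical in
/-- Inclusion and exclusion: the indicator function of `c` being proper is the product over the edges
`e` of `1 - [e monochromatic]` (`Finset.prod_one_sub`, or `Finset.prod_sub`), expand, sum over `c`
with boundary values `ε`, use `cnt_A`. -/
theorem ext_count [Finite X] (N : SimpleGraph (Fin n ⊕ X)) (E : Finset (Sym2 (Fin n ⊕ X)))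
    (hE : ∀ e, e ∈ E ↔ e ∈ N.edgeSet) (q : ℕ) (ε : Fin n → Fin q) :
    (Nat.card (BCol N q ε) : ℝ) = ∑ A ∈ E.powerset, (-1) ^ A.card * ((q : ℝ) ^ mA A *
      (if ∀ i j, (piA A).r i j → ε i = ε j then 1 else 0)) := by
  have := Fintype.ofFinite X
  have h1 : ∀ A : Finset (Sym2 (Fin n ⊕ X)), (q : ℝ) ^ mA A *
      (if ∀ i j, (piA A).r i j → ε i = ε j then 1 else 0) =
      ∑ c : Fin n ⊕ X → Fin q, (if (∀ e ∈ A, mono c e) ∧ ∀ i, c (Sum.inl i) = ε i
        then (1 : ℝ) else 0) := by
    intro A
    rw [← cnt_A, card_sub_eq]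
    refine Finset.sum_congr rfl (fun c _ => ?_)
    congr 1
    rw [eq_iff_iff]
    refine and_congr_left (fun _ => ?_)
    constructor
    · intro h e
      induction e using Sym2.ind with
      | _ a b =>
        intro he
        exact (mono_mk c a b).2 (h a b he)
    · intro h a b he
      exact (mono_mk c a b).1 (h _ he)
  simp only [h1]
  rw [BCol, card_sub_eq]
  simp only [Finset.mul_sum]
  rw [Finset.sum_comm]
  refine Finset.sum_congr rfl (fun c _ => ?_)
  by_cases hb : ∀ i, c (Sum.inl i) = ε i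
  · have h2 : ∀ P : Prop, (P ∧ ∀ i, c (Sum.inl i) = ε i) ↔ P := fun P => and_iff_left hb
    simp only [h2]
    have h3 : (∀ a b, N.Adj a b → c a ≠ c b) ↔ ∀ e ∈ E, ¬ mono c e := by
      constructor
      · intro h e
        induction e using Sym2.ind with
        | _ a b =>
          intro he h3
          exact h a b ((hE _).1 he) ((mono_mk c a b).1 h3)
      · intro h a b hab h3
        exact h _ ((hE s(a, b)).2 hab) ((mono_mk c a b).2 h3)
    have h4 := incl_excl c E
    simp only [h3]
    convert h4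
  · have h2 : ∀ P : Prop, ¬ (P ∧ ∀ i, c (Sum.inl i) = ε i) := fun P h => hb h.2
    simp only [h2, if_false, mul_zero, Finset.sum_const_zero]

/-- The partition `piA A` is non-crossing: if `a < b < c < d`, `a ~ c`, `b ~ d` in the graph of `A`,
then the walks in this subgraph of `N` meet (map them to `N`, `SimpleGraph.Walk.mapLe`, the support
does not change), so `a ~ b`. -/
theorem nc_piA (N : SimpleGraph (Fin n ⊕ X)) (hN : Crossless N) (A : Finset (Sym2 (Fin n ⊕ X)))
    (hA : ∀ e ∈ A, e ∈ N.edgeSet) : NC (piA A) := by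
  classical
  have hle : sg A ≤ N := by
    intro u v h
    rw [SimpleGraph.fromEdgeSet_adj] at h
    exact hA _ h.1
  intro a b c d hab hbc hcd hac hbd
  have hac' : (sg A).Reachable (Sum.inl a) (Sum.inl c) := hac
  have hbd' : (sg A).Reachable (Sum.inl b) (Sum.inl d) := hbd
  obtain ⟨p⟩ := hac'
  obtain ⟨q⟩ := hbd'
  obtain ⟨v, hv, hv'⟩ := hN a b c d hab hbc hcd (p.mapLe hle) (q.mapLe hle)
  rw [SimpleGraph.Walk.support_mapLe_eq_support] at hv hv'
  have h1 : (sg A).Reachable (Sum.inl a) v := ⟨p.takeUntil v hv⟩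
  have h2 : (sg A).Reachable (Sum.inl b) v := ⟨q.takeUntil v hv'⟩
  exact h1.trans h2.symm

end Pool.Agent.Rp
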