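import Pool.Agent.Lib.MP_dbdc94_co.Defs

/-!
# Project RP: special Frobenius algebras in coordinates and the four operations

Vectors of the tensor powers of `S → ℝ` are functions `List S → ℝ` (only the values at the lists of
the right length matter). `ins j` inserts the unit at position `j`, `dup j` applies the coproduct at
position `j`; `del j` and `mrg j` are their adjoints.
-/

set_option autoImplicit false

namespace Pool.Agent.Rp

/-- A special Frobenius algebra with the parameter `x`, in coordinates: `η` is the unit and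
`Δ a b c` the coefficient of `a ⊗ b` in the coproduct of `c`. -/
structure Fr (S : Type) [Fintype S] [DecidableEq S] (x : ℝ) where
  η : S → ℝ
  Δ : S → S → S → ℝ
  norm : ∑ a, η a * η a = x
  uL : ∀ b c, ∑ a, η a * Δ a b c = if b = c then 1 else 0
  uR : ∀ a c, ∑ b, η b * Δ a b c = if a = c then 1 else 0
  sp : ∀ c d, ∑ a, ∑ b, Δ a b c * Δ a b d = if c = d then 1 else 0
  fr : ∀ a b c d, ∑ e, Δ c e a * Δ e b d = ∑ s, Δ c d s * Δ a b s

variable {S : Type} [Fintype S] [DecidableEq S] {x : ℝ} (F : Fr S x)

/-- insert the unit at position `j` -/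
def ins : ℕ → (List S → ℝ) → List S → ℝ
  | 0, _, [] => 0
  | 0, f, s :: l => F.η s * f l
  | _ + 1, _, [] => 0
  | j + 1, f, s :: l => ins j (fun l' => f (s :: l')) l

/-- coproduct at position `j` -/
def dup : ℕ → (List S → ℝ) → List S → ℝ
  | 0, _, [] => 0
  | 0, _, [_] => 0
  | 0, f, a :: b :: l => ∑ c, F.Δ a b c * f (c :: l)
  | _ + 1, _, [] => 0
  | j + 1, f, s :: l => dup j (fun l' => f (s :: l')) l

/-- adjoint of `ins` -/
def del : ℕ → (List S → ℝ) → List S → ℝ
  | 0, f, l => ∑ s, F.η s * f (s :: l)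
  | _ + 1, _, [] => 0
  | j + 1, f, s :: l => del j (fun l' => f (s :: l')) l

/-- adjoint of `dup` -/
def mrg : ℕ → (List S → ℝ) → List S → ℝ
  | 0, _, [] => 0
  | 0, f, c :: l => ∑ a, ∑ b, F.Δ a b c * f (a :: b :: l)
  | _ + 1, _, [] => 0
  | j + 1, f, s :: l => mrg j (fun l' => f (s :: l')) l

omit [DecidableEq S] in
/-- inner product of two vectors of the `n`-th tensor power -/
def ip : ℕ → (List S → ℝ) → (List S → ℝ) → ℝ
  | 0, f, g => f [] * g []
  | n + 1, f, g => ∑ s, ip n (fun l => f (s :: l)) (fun l => g (s :: l))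

end Pool.Agent.Rp
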