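import Pool.Agent.Lib.MP_dbdc94_co.Fr

/-!
# Project RP: linearity of the four operations, adjointness

Induction on the position `j` (and on `n` for `ip`), for all functions at once.
-/

set_option autoImplicit false

namespace Pool.Agent.Rp

variable {S : Type} [Fintype S] [DecidableEq S] {x : ℝ} (F : Fr S x)

section linear

variable {ι : Type} (t : Finset ι) (c : ι → ℝ) (f : ι → List S → ℝ)

theorem ins_sum (j : ℕ) : ins F j (fun l => ∑ i ∈ t, c i * f i l) =
    fun l => ∑ i ∈ t, c i * ins F j (f i) l := by
  induction j generalizing f with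
  | zero =>
    funext l
    cases l with
    | nil => simp [ins]
    | cons s l =>
      simp only [ins, Finset.mul_sum]
      exact Finset.sum_congr rfl (fun i _ => by ring)
  | succ j ih =>
    funext l
    cases l with
    | nil => simp [ins]
    | cons s l =>
      simp only [ins]
      exact congrFun (ih (fun i l' => f i (s :: l'))) l

theorem dup_sum (j : ℕ) : dup F j (fun l => ∑ i ∈ t, c i * f i l) =
    fun l => ∑ i ∈ t, c i * dup F j (f i) l := by
  induction j generalizing f with
  | zero =>
    funext l
    match l with
    | [] => simp [dup]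
    | [_] => simp [dup]
    | a :: b :: l =>
      simp only [dup, Finset.mul_sum]
      rw [Finset.sum_comm]
      exact Finset.sum_congr rfl (fun i _ => Finset.sum_congr rfl (fun d _ => by ring))
  | succ j ih =>
    funext l
    cases l with
    | nil => simp [dup]
    | cons s l =>
      simp only [dup]
      exact congrFun (ih (fun i l' => f i (s :: l'))) l

theorem del_sum (j : ℕ) : del F j (fun l => ∑ i ∈ t, c i * f i l) =
    fun l => ∑ i ∈ t, c i * del F j (f i) l := by
  induction j generalizing f with
  | zero =>
    funext l
    simp only [del, Finset.mul_sum]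
    rw [Finset.sum_comm]
    exact Finset.sum_congr rfl (fun i _ => Finset.sum_congr rfl (fun d _ => by ring))
  | succ j ih =>
    funext l
    cases l with
    | nil => simp [del]
    | cons s l =>
      simp only [del]
      exact congrFun (ih (fun i l' => f i (s :: l'))) l

theorem mrg_sum (j : ℕ) : mrg F j (fun l => ∑ i ∈ t, c i * f i l) =
    fun l => ∑ i ∈ t, c i * mrg F j (f i) l := by
  induction j generalizing f with
  | zero =>
    funext l
    cases l with
    | nil => simp [mrg]
    | cons d l =>
      simp only [mrg, Finset.mul_sum]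
      have h1 : ∀ a, ∑ b, ∑ i ∈ t, F.Δ a b d * (c i * f i (a :: b :: l)) =
          ∑ i ∈ t, ∑ b, c i * (F.Δ a b d * f i (a :: b :: l)) := by
        intro a
        rw [Finset.sum_comm]
        exact Finset.sum_congr rfl (fun i _ => Finset.sum_congr rfl (fun b _ => by ring))
      rw [Finset.sum_congr rfl (fun a _ => h1 a), Finset.sum_comm]
  | succ j ih =>
    funext l
    cases l with
    | nil => simp [mrg]
    | cons s l =>
      simp only [mrg]
      exact congrFun (ih (fun i l' => f i (s :: l'))) l

theorem ins_mul (j : ℕ) (a : ℝ) (g : List S → ℝ) : ins F j (fun l => a * g l) =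
    fun l => a * ins F j g l := by
  have h := ins_sum F {()} (fun _ => a) (fun _ => g) j
  simpa only [Finset.sum_singleton] using h

theorem dup_mul (j : ℕ) (a : ℝ) (g : List S → ℝ) : dup F j (fun l => a * g l) =
    fun l => a * dup F j g l := by
  have h := dup_sum F {()} (fun _ => a) (fun _ => g) j
  simpa only [Finset.sum_singleton] using h

theorem del_mul (j : ℕ) (a : ℝ) (g : List S → ℝ) : del F j (fun l => a * g l) =
    fun l => a * del F j g l := by
  have h := del_sum F {()} (fun _ => a) (fun _ => g) j
  simpa only [Finset.sum_singleton] using h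

theorem mrg_mul (j : ℕ) (a : ℝ) (g : List S → ℝ) : mrg F j (fun l => a * g l) =
    fun l => a * mrg F j g l := by
  have h := mrg_sum F {()} (fun _ => a) (fun _ => g) j
  simpa only [Finset.sum_singleton] using h

omit [DecidableEq S] in
theorem ip_sum_right (n : ℕ) (g : List S → ℝ) : ip n g (fun l => ∑ i ∈ t, c i * f i l) =
    ∑ i ∈ t, c i * ip n g (f i) := by
  induction n generalizing f g with
  | zero =>
    simp only [ip, Finset.mul_sum]
    exact Finset.sum_congr rfl (fun i _ => by ring)
  | succ n ih =>
    simp only [ip, Finset.mul_sum]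
    rw [Finset.sum_comm]
    refine Finset.sum_congr rfl (fun s _ => ?_)
    exact ih (fun i l => f i (s :: l)) (fun l => g (s :: l))

omit [DecidableEq S] in
theorem ip_comm (n : ℕ) (f g : List S → ℝ) : ip n f g = ip n g f := by
  induction n generalizing f g with
  | zero => exact mul_comm _ _
  | succ n ih =>
    simp only [ip]
    exact Finset.sum_congr rfl (fun s _ => ih _ _)

omit [DecidableEq S] in
theorem ip_mul_right (n : ℕ) (a : ℝ) (f g : List S → ℝ) :
    ip n f (fun l => a * g l) = a * ip n f g := by
  have h := ip_sum_right {()} (fun _ => a) (fun _ => g) n f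
  simpa only [Finset.sum_singleton] using h

end linear

variable (f g : List S → ℝ)

/-! ### adjointness -/

theorem ip_ins (n j : ℕ) (h : j ≤ n) : ip (n + 1) (ins F j f) g = ip n f (del F j g) := by
  induction j generalizing n f g with
  | zero =>
    have h1 : del F 0 g = fun l => ∑ s, F.η s * g (s :: l) := by
      funext l
      simp only [del]
    rw [h1, ip_sum_right Finset.univ F.η (fun s l => g (s :: l)) n f]
    simp only [ip]
    refine Finset.sum_congr rfl (fun s _ => ?_)
    have h2 : (fun l => ins F 0 f (s :: l)) = fun l => F.η s * f l := by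
      funext l
      simp only [ins]
    rw [h2, ip_comm, ip_mul_right, ip_comm]
  | succ j ih =>
    cases n with
    | zero => omega
    | succ m =>
      have h1 : ip (m + 1 + 1) (ins F (j + 1) f) g =
          ∑ s, ip (m + 1) (ins F j (fun l => f (s :: l))) (fun l => g (s :: l)) := rfl
      have h2 : ip (m + 1) f (del F (j + 1) g) =
          ∑ s, ip m (fun l => f (s :: l)) (del F j (fun l => g (s :: l))) := rfl
      rw [h1, h2]
      exact Finset.sum_congr rfl (fun s _ => ih _ _ m (by omega))

theorem ip_dup (n j : ℕ) (h : j < n) : ip (n + 1) (dup F j f) g = ip n f (mrg F j g) := by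
  induction j generalizing n f g with
  | zero =>
    cases n with
    | zero => omega
    | succ m =>
      have h1 : ip (m + 1 + 1) (dup F 0 f) g = ∑ a, ∑ b,
          ip m (fun l => ∑ c, F.Δ a b c * f (c :: l)) (fun l => g (a :: b :: l)) := rfl
      have h2 : ip (m + 1) f (mrg F 0 g) = ∑ c, ip m (fun l => f (c :: l))
          (fun l => ∑ a, ∑ b, F.Δ a b c * g (a :: b :: l)) := rfl
      have h3 : ∀ c, ip m (fun l => f (c :: l))
          (fun l => ∑ a, ∑ b, F.Δ a b c * g (a :: b :: l)) =
          ∑ a, ∑ b, F.Δ a b c * ip m (fun l => f (c :: l)) (fun l => g (a :: b :: l)) := by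
        intro c
        have h4 := ip_sum_right (Finset.univ : Finset S) (fun _ => (1 : ℝ))
          (fun a l => ∑ b, F.Δ a b c * g (a :: b :: l)) m (fun l => f (c :: l))
        simp only [one_mul] at h4
        rw [h4]
        refine Finset.sum_congr rfl (fun a _ => ?_)
        exact ip_sum_right Finset.univ (fun b => F.Δ a b c) (fun b l => g (a :: b :: l)) m _
      have h5 : ∀ a b, ip m (fun l => ∑ c, F.Δ a b c * f (c :: l)) (fun l => g (a :: b :: l)) =
          ∑ c, F.Δ a b c * ip m (fun l => f (c :: l)) (fun l => g (a :: b :: l)) := by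
        intro a b
        rw [ip_comm, ip_sum_right Finset.univ (fun c => F.Δ a b c) (fun c l => f (c :: l)) m _]
        exact Finset.sum_congr rfl (fun c _ => by rw [ip_comm])
      rw [h1, h2, Finset.sum_congr rfl (fun c _ => h3 c),
        Finset.sum_congr rfl (fun a _ => Finset.sum_congr rfl (fun b _ => h5 a b))]
      refine (Finset.sum_comm.trans (Finset.sum_congr rfl (fun a _ => ?_))).symm
      exact Finset.sum_comm
  | succ j ih =>
    cases n with
    | zero => omega
    | succ m =>
      have h1 : ip (m + 1 + 1) (dup F (j + 1) f) g =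
          ∑ s, ip (m + 1) (dup F j (fun l => f (s :: l))) (fun l => g (s :: l)) := rfl
      have h2 : ip (m + 1) f (mrg F (j + 1) g) =
          ∑ s, ip m (fun l => f (s :: l)) (mrg F j (fun l => g (s :: l))) := rfl
      rw [h1, h2]
      exact Finset.sum_congr rfl (fun s _ => ih _ _ m (by omega))

end Pool.Agent.Rp
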