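import Pool.Agent.Lib.MP_dbdc94_co.FrLin

/-!
# Project RP: relations between the four operations

Everything is proved by recursion on the positions (`funext l`, cases on `l`): the case of two positive
positions follows from the previous one (`op F (j + 1) f (s :: l) = op F j (fun l' => f (s :: l')) l`
by definition, at `[]` both sides are `0`); if one position is `0`, use linearity (the lemmas
`ins_sum`, ... of FrLin), or one of the axioms (`uL`, `uR`, `sp`, `fr`, `norm`).
-/

set_option autoImplicit false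

namespace Pool.Agent.Rp

variable {S : Type} [Fintype S] [DecidableEq S] {x : ℝ} (F : Fr S x)

variable (f : List S → ℝ)

/-! ### defining equations -/

theorem ins_zero_cons (s : S) (l : List S) : ins F 0 f (s :: l) = F.η s * f l := rfl

theorem ins_zero_nil : ins F 0 f [] = 0 := rfl

theorem ins_succ_nil (j : ℕ) : ins F (j + 1) f [] = 0 := rfl

theorem ins_succ_cons (j : ℕ) (s : S) (l : List S) :
    ins F (j + 1) f (s :: l) = ins F j (fun l' => f (s :: l')) l := rfl

theorem ins_succ_fun (j : ℕ) (s : S) :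
    (fun l' => ins F (j + 1) f (s :: l')) = ins F j (fun l' => f (s :: l')) := rfl

theorem dup_zero_cons (a b : S) (l : List S) :
    dup F 0 f (a :: b :: l) = ∑ c, F.Δ a b c * f (c :: l) := rfl

theorem dup_zero_nil : dup F 0 f [] = 0 := rfl

theorem dup_zero_one (a : S) : dup F 0 f [a] = 0 := rfl

theorem dup_succ_nil (j : ℕ) : dup F (j + 1) f [] = 0 := rfl

theorem dup_succ_cons (j : ℕ) (s : S) (l : List S) :
    dup F (j + 1) f (s :: l) = dup F j (fun l' => f (s :: l')) l := rfl

theorem dup_succ_fun (j : ℕ) (s : S) :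
    (fun l' => dup F (j + 1) f (s :: l')) = dup F j (fun l' => f (s :: l')) := rfl

theorem del_zero_fun : del F 0 f = fun l => ∑ s, F.η s * f (s :: l) := rfl

theorem del_succ_nil (j : ℕ) : del F (j + 1) f [] = 0 := rfl

theorem del_succ_cons (j : ℕ) (s : S) (l : List S) :
    del F (j + 1) f (s :: l) = del F j (fun l' => f (s :: l')) l := rfl

theorem del_succ_fun (j : ℕ) (s : S) :
    (fun l' => del F (j + 1) f (s :: l')) = del F j (fun l' => f (s :: l')) := rfl

theorem mrg_zero_nil : mrg F 0 f [] = 0 := rfl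

theorem mrg_zero_cons (c : S) (l : List S) :
    mrg F 0 f (c :: l) = ∑ a, ∑ b, F.Δ a b c * f (a :: b :: l) := rfl

theorem mrg_succ_nil (j : ℕ) : mrg F (j + 1) f [] = 0 := rfl

theorem mrg_succ_cons (j : ℕ) (s : S) (l : List S) :
    mrg F (j + 1) f (s :: l) = mrg F j (fun l' => f (s :: l')) l := rfl

theorem mrg_succ_fun (j : ℕ) (s : S) :
    (fun l' => mrg F (j + 1) f (s :: l')) = mrg F j (fun l' => f (s :: l')) := rfl

/-! ### double sums -/

omit [Fintype S] [DecidableEq S] in
theorem sum2 [Fintype S] (c : S → S → ℝ) (g : S → S → List S → ℝ) :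
    (fun l : List S => ∑ a, ∑ b, c a b * g a b l) =
      fun l => ∑ i ∈ (Finset.univ : Finset (S × S)), c i.1 i.2 * g i.1 i.2 l := by
  funext l
  rw [← Finset.univ_product_univ, Finset.sum_product]

theorem ins_sum2 (j : ℕ) (c : S → S → ℝ) (g : S → S → List S → ℝ) :
    ins F j (fun l => ∑ a, ∑ b, c a b * g a b l) =
      fun l => ∑ a, ∑ b, c a b * ins F j (g a b) l := by
  rw [sum2 c g, ins_sum F Finset.univ (fun i : S × S => c i.1 i.2) (fun i => g i.1 i.2) j,
    sum2 c (fun a b => ins F j (g a b))]

theorem dup_sum2 (j : ℕ) (c : S → S → ℝ) (g : S → S → List S → ℝ) :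
    dup F j (fun l => ∑ a, ∑ b, c a b * g a b l) =
      fun l => ∑ a, ∑ b, c a b * dup F j (g a b) l := by
  rw [sum2 c g, dup_sum F Finset.univ (fun i : S × S => c i.1 i.2) (fun i => g i.1 i.2) j,
    sum2 c (fun a b => dup F j (g a b))]

/-! ### `del` and `ins` -/

theorem del_ins_self (j : ℕ) (l : List S) (h : j ≤ l.length) :
    del F j (ins F j f) l = x * f l := by
  induction j generalizing f l with
  | zero =>
    rw [del_zero_fun]
    simp only [ins_zero_cons]
    calc ∑ s, F.η s * (F.η s * f l) = (∑ s, F.η s * F.η s) * f l := by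
          rw [Finset.sum_mul]
          exact Finset.sum_congr rfl fun s _ => by ring
      _ = x * f l := congrArg (fun r => r * f l) F.norm
  | succ j ih =>
    cases l with
    | nil => exact absurd h (Nat.not_succ_le_zero j)
    | cons s l =>
      rw [del_succ_cons, ins_succ_fun]
      exact ih _ l (Nat.succ_le_succ_iff.1 h)

theorem del_ins_lt (j i : ℕ) (h : j ≤ i) : del F j (ins F (i + 1) f) = ins F i (del F j f) := by
  induction j generalizing i f with
  | zero =>
    rw [del_zero_fun, del_zero_fun]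
    simp only [ins_succ_cons]
    exact (ins_sum F Finset.univ F.η (fun s l' => f (s :: l')) i).symm
  | succ j ih =>
    obtain ⟨i, rfl⟩ : ∃ k, i = k + 1 := ⟨i - 1, by omega⟩
    funext l
    cases l with
    | nil => rfl
    | cons s l =>
      rw [del_succ_cons, ins_succ_fun, ins_succ_cons, del_succ_fun,
        ih (fun l' => f (s :: l')) i (Nat.succ_le_succ_iff.1 h)]

theorem del_ins_gt (j i : ℕ) (h : i ≤ j) : del F (j + 1) (ins F i f) = ins F i (del F j f) := by
  induction i generalizing j f with
  | zero =>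
    funext l
    cases l with
    | nil => rfl
    | cons s l =>
      rw [del_succ_cons, ins_zero_cons]
      simp only [ins_zero_cons]
      rw [del_mul]
  | succ i ih =>
    obtain ⟨j, rfl⟩ : ∃ k, j = k + 1 := ⟨j - 1, by omega⟩
    funext l
    cases l with
    | nil => rfl
    | cons s l =>
      rw [del_succ_cons, ins_succ_fun, ins_succ_cons, del_succ_fun,
        ih (fun l' => f (s :: l')) j (Nat.succ_le_succ_iff.1 h)]

/-! ### `del` and `dup` -/

theorem sum_uL (b : S) (g : S → ℝ) : ∑ a, F.η a * ∑ c, F.Δ a b c * g c = g b := by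
  have h1 : ∀ a, F.η a * ∑ c, F.Δ a b c * g c = ∑ c, F.η a * F.Δ a b c * g c := by
    intro a
    rw [Finset.mul_sum]
    exact Finset.sum_congr rfl fun c _ => by ring
  simp only [h1]
  rw [Finset.sum_comm]
  simp only [← Finset.sum_mul, F.uL]
  rw [Finset.sum_eq_single b]
  · rw [if_pos rfl, one_mul]
  · intro c _ hc
    rw [if_neg (Ne.symm hc), zero_mul]
  · intro h
    exact absurd (Finset.mem_univ b) h

theorem sum_uR (a : S) (g : S → ℝ) : ∑ b, F.η b * ∑ c, F.Δ a b c * g c = g a := by
  have h1 : ∀ b, F.η b * ∑ c, F.Δ a b c * g c = ∑ c, F.η b * F.Δ a b c * g c := by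
    intro b
    rw [Finset.mul_sum]
    exact Finset.sum_congr rfl fun c _ => by ring
  simp only [h1]
  rw [Finset.sum_comm]
  simp only [← Finset.sum_mul, F.uR]
  rw [Finset.sum_eq_single a]
  · rw [if_pos rfl, one_mul]
  · intro c _ hc
    rw [if_neg (Ne.symm hc), zero_mul]
  · intro h
    exact absurd (Finset.mem_univ a) h

theorem sum_uL' (c : S) (g : S → ℝ) : ∑ a, ∑ b, F.Δ a b c * (F.η a * g b) = g c := by
  rw [Finset.sum_comm]
  have h1 : ∀ b, ∑ a, F.Δ a b c * (F.η a * g b) = (∑ a, F.η a * F.Δ a b c) * g b := by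
    intro b
    rw [Finset.sum_mul]
    exact Finset.sum_congr rfl fun a _ => by ring
  simp only [h1, F.uL]
  rw [Finset.sum_eq_single c]
  · rw [if_pos rfl, one_mul]
  · intro b _ hb
    rw [if_neg hb, zero_mul]
  · intro h
    exact absurd (Finset.mem_univ c) h

theorem sum_uR' (c : S) (g : S → ℝ) : ∑ a, ∑ b, F.Δ a b c * (F.η b * g a) = g c := by
  have h1 : ∀ a, ∑ b, F.Δ a b c * (F.η b * g a) = (∑ b, F.η b * F.Δ a b c) * g a := by
    intro a
    rw [Finset.sum_mul]
    exact Finset.sum_congr rfl fun b _ => by ring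
  simp only [h1, F.uR]
  rw [Finset.sum_eq_single c]
  · rw [if_pos rfl, one_mul]
  · intro b _ hb
    rw [if_neg hb, zero_mul]
  · intro h
    exact absurd (Finset.mem_univ c) h

theorem sum_sp (c : S) (g : S → ℝ) :
    ∑ a, ∑ b, F.Δ a b c * ∑ d, F.Δ a b d * g d = g c := by
  have h1 : ∀ a b, F.Δ a b c * ∑ d, F.Δ a b d * g d = ∑ d, F.Δ a b c * F.Δ a b d * g d := by
    intro a b
    rw [Finset.mul_sum]
    exact Finset.sum_congr rfl fun d _ => by ring
  simp only [h1]
  have h2 : ∀ a, ∑ b, ∑ d, F.Δ a b c * F.Δ a b d * g d =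
      ∑ d, (∑ b, F.Δ a b c * F.Δ a b d) * g d := by
    intro a
    rw [Finset.sum_comm]
    simp only [Finset.sum_mul]
  simp only [h2]
  rw [Finset.sum_comm]
  simp only [← Finset.sum_mul, F.sp]
  rw [Finset.sum_eq_single c]
  · rw [if_pos rfl, one_mul]
  · intro d _ hd
    rw [if_neg (Ne.symm hd), zero_mul]
  · intro h
    exact absurd (Finset.mem_univ c) h

theorem del_dup_self (i : ℕ) (l : List S) (h : i < l.length) : del F i (dup F i f) l = f l := by
  induction i generalizing f l with
  | zero =>
    cases l with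
    | nil => exact absurd h (Nat.not_lt_zero 0)
    | cons b l =>
      rw [del_zero_fun]
      simp only [dup_zero_cons]
      exact sum_uL F b fun c => f (c :: l)
  | succ i ih =>
    cases l with
    | nil => exact absurd h (Nat.not_lt_zero _)
    | cons s l =>
      rw [del_succ_cons, dup_succ_fun]
      exact ih _ l (Nat.succ_lt_succ_iff.1 h)

theorem del_dup_succ (i : ℕ) (l : List S) (h : i < l.length) :
    del F (i + 1) (dup F i f) l = f l := by
  induction i generalizing f l with
  | zero =>
    cases l with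
    | nil => exact absurd h (Nat.not_lt_zero 0)
    | cons a l =>
      rw [del_succ_cons, del_zero_fun]
      simp only [dup_zero_cons]
      exact sum_uR F a fun c => f (c :: l)
  | succ i ih =>
    cases l with
    | nil => exact absurd h (Nat.not_lt_zero _)
    | cons s l =>
      rw [del_succ_cons, dup_succ_fun]
      exact ih _ l (Nat.succ_lt_succ_iff.1 h)

theorem del_dup_lt (j i : ℕ) (h : j ≤ i) : del F j (dup F (i + 1) f) = dup F i (del F j f) := by
  induction j generalizing i f with
  | zero =>
    rw [del_zero_fun, del_zero_fun]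
    simp only [dup_succ_cons]
    exact (dup_sum F Finset.univ F.η (fun s l' => f (s :: l')) i).symm
  | succ j ih =>
    obtain ⟨i, rfl⟩ : ∃ k, i = k + 1 := ⟨i - 1, by omega⟩
    funext l
    cases l with
    | nil => rfl
    | cons s l =>
      rw [del_succ_cons, dup_succ_fun, dup_succ_cons, del_succ_fun,
        ih (fun l' => f (s :: l')) i (Nat.succ_le_succ_iff.1 h)]

theorem del_dup_gt (j i : ℕ) (h : i + 1 ≤ j) :
    del F (j + 1) (dup F i f) = dup F i (del F j f) := by
  induction i generalizing j f with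
  | zero =>
    obtain ⟨j, rfl⟩ : ∃ k, j = k + 1 := ⟨j - 1, by omega⟩
    funext l
    match l with
    | [] => rfl
    | [a] => rfl
    | a :: b :: l =>
      rw [del_succ_cons, del_succ_cons, dup_zero_cons]
      simp only [dup_zero_cons, del_succ_cons]
      rw [del_sum F Finset.univ (F.Δ a b) (fun c l' => f (c :: l')) j]
  | succ i ih =>
    obtain ⟨j, rfl⟩ : ∃ k, j = k + 1 := ⟨j - 1, by omega⟩
    funext l
    cases l with
    | nil => rfl
    | cons s l =>
      rw [del_succ_cons, dup_succ_fun, dup_succ_cons, del_succ_fun,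
        ih (fun l' => f (s :: l')) j (Nat.succ_le_succ_iff.1 h)]

/-! ### `mrg` and `ins` -/

theorem mrg_ins_self (i : ℕ) (l : List S) (h : i < l.length) : mrg F i (ins F i f) l = f l := by
  induction i generalizing f l with
  | zero =>
    cases l with
    | nil => exact absurd h (Nat.not_lt_zero 0)
    | cons c l =>
      rw [mrg_zero_cons]
      simp only [ins_zero_cons]
      exact sum_uL' F c fun b => f (b :: l)
  | succ i ih =>
    cases l with
    | nil => exact absurd h (Nat.not_lt_zero _)
    | cons s l =>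
      rw [mrg_succ_cons, ins_succ_fun]
      exact ih _ l (Nat.succ_lt_succ_iff.1 h)

theorem mrg_ins_succ (i : ℕ) (l : List S) (h : i < l.length) :
    mrg F i (ins F (i + 1) f) l = f l := by
  induction i generalizing f l with
  | zero =>
    cases l with
    | nil => exact absurd h (Nat.not_lt_zero 0)
    | cons c l =>
      rw [mrg_zero_cons]
      simp only [ins_succ_cons, ins_zero_cons]
      exact sum_uR' F c fun a => f (a :: l)
  | succ i ih =>
    cases l with
    | nil => exact absurd h (Nat.not_lt_zero _)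
    | cons s l =>
      rw [mrg_succ_cons, ins_succ_fun]
      exact ih _ l (Nat.succ_lt_succ_iff.1 h)

theorem mrg_ins_lt (j i : ℕ) (h : i ≤ j) : mrg F (j + 1) (ins F i f) = ins F i (mrg F j f) := by
  induction i generalizing j f with
  | zero =>
    funext l
    cases l with
    | nil => rfl
    | cons s l =>
      rw [mrg_succ_cons, ins_zero_cons]
      simp only [ins_zero_cons]
      rw [mrg_mul]
  | succ i ih =>
    obtain ⟨j, rfl⟩ : ∃ k, j = k + 1 := ⟨j - 1, by omega⟩
    funext l
    cases l with
    | nil => rfl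
    | cons s l =>
      rw [mrg_succ_cons, ins_succ_fun, ins_succ_cons, mrg_succ_fun,
        ih (fun l' => f (s :: l')) j (Nat.succ_le_succ_iff.1 h)]

theorem mrg_ins_gt (j i : ℕ) (h : j + 1 ≤ i) :
    mrg F j (ins F (i + 1) f) = ins F i (mrg F j f) := by
  induction j generalizing i f with
  | zero =>
    obtain ⟨i, rfl⟩ : ∃ k, i = k + 1 := ⟨i - 1, by omega⟩
    funext l
    cases l with
    | nil => rfl
    | cons c l =>
      rw [mrg_zero_cons, ins_succ_cons]
      simp only [ins_succ_cons, mrg_zero_cons]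
      rw [ins_sum2 F i (fun a b => F.Δ a b c) (fun a b l' => f (a :: b :: l'))]
  | succ j ih =>
    obtain ⟨i, rfl⟩ : ∃ k, i = k + 1 := ⟨i - 1, by omega⟩
    funext l
    cases l with
    | nil => rfl
    | cons s l =>
      rw [mrg_succ_cons, ins_succ_fun, ins_succ_cons, mrg_succ_fun,
        ih (fun l' => f (s :: l')) i (Nat.succ_le_succ_iff.1 h)]

/-! ### `mrg` and `dup` -/

theorem mrg_dup_self (i : ℕ) (l : List S) (h : i < l.length) : mrg F i (dup F i f) l = f l := by
  induction i generalizing f l with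
  | zero =>
    cases l with
    | nil => exact absurd h (Nat.not_lt_zero 0)
    | cons c l =>
      rw [mrg_zero_cons]
      simp only [dup_zero_cons]
      exact sum_sp F c fun d => f (d :: l)
  | succ i ih =>
    cases l with
    | nil => exact absurd h (Nat.not_lt_zero _)
    | cons s l =>
      rw [mrg_succ_cons, dup_succ_fun]
      exact ih _ l (Nat.succ_lt_succ_iff.1 h)

theorem mrg_dup_succ (i : ℕ) : mrg F (i + 1) (dup F i f) = dup F i (mrg F i f) := by
  induction i generalizing f with
  | zero =>
    funext l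
    match l with
    | [] => rfl
    | [a] => rfl
    | a :: b :: l =>
      rw [mrg_succ_cons, mrg_zero_cons, dup_zero_cons]
      simp only [dup_zero_cons, mrg_zero_cons]
      have h1 : ∀ q c, ∑ p, F.Δ p q b * (F.Δ a p c * f (c :: q :: l)) =
          ∑ s, F.Δ a b s * (F.Δ c q s * f (c :: q :: l)) := by
        intro q c
        have h2 := congrArg (fun r => r * f (c :: q :: l)) (F.fr c q a b)
        simp only [Finset.sum_mul] at h2
        calc ∑ p, F.Δ p q b * (F.Δ a p c * f (c :: q :: l)) =
            ∑ p, F.Δ a p c * F.Δ p q b * f (c :: q :: l) :=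
              Finset.sum_congr rfl fun p _ => by ring
          _ = ∑ s, F.Δ a b s * F.Δ c q s * f (c :: q :: l) := h2
          _ = _ := Finset.sum_congr rfl fun s _ => by ring
      calc ∑ p, ∑ q, F.Δ p q b * ∑ c, F.Δ a p c * f (c :: q :: l) =
          ∑ p, ∑ q, ∑ c, F.Δ p q b * (F.Δ a p c * f (c :: q :: l)) := by
            simp only [Finset.mul_sum]
        _ = ∑ q, ∑ p, ∑ c, F.Δ p q b * (F.Δ a p c * f (c :: q :: l)) := Finset.sum_comm
        _ = ∑ q, ∑ c, ∑ p, F.Δ p q b * (F.Δ a p c * f (c :: q :: l)) :=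
            Finset.sum_congr rfl fun q _ => Finset.sum_comm
        _ = ∑ q, ∑ c, ∑ s, F.Δ a b s * (F.Δ c q s * f (c :: q :: l)) :=
            Finset.sum_congr rfl fun q _ => Finset.sum_congr rfl fun c _ => h1 q c
        _ = ∑ c, ∑ q, ∑ s, F.Δ a b s * (F.Δ c q s * f (c :: q :: l)) := Finset.sum_comm
        _ = ∑ c, ∑ s, ∑ q, F.Δ a b s * (F.Δ c q s * f (c :: q :: l)) :=
            Finset.sum_congr rfl fun c _ => Finset.sum_comm
        _ = ∑ s, ∑ c, ∑ q, F.Δ a b s * (F.Δ c q s * f (c :: q :: l)) := Finset.sum_comm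
        _ = ∑ s, F.Δ a b s * ∑ c, ∑ q, F.Δ c q s * f (c :: q :: l) := by
            simp only [Finset.mul_sum]
  | succ i ih =>
    funext l
    cases l with
    | nil => rfl
    | cons s l =>
      rw [mrg_succ_cons, dup_succ_fun, dup_succ_cons, mrg_succ_fun, ih (fun l' => f (s :: l'))]

theorem mrg_dup_pred (i : ℕ) : mrg F i (dup F (i + 1) f) = dup F i (mrg F i f) := by
  induction i generalizing f with
  | zero =>
    funext l
    match l with
    | [] => rfl
    | [a] =>
      rw [mrg_zero_cons, dup_zero_one]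
      simp only [dup_succ_cons, dup_zero_one, mul_zero, Finset.sum_const_zero]
    | a :: b :: l =>
      rw [mrg_zero_cons, dup_zero_cons]
      simp only [dup_succ_cons, dup_zero_cons, mrg_zero_cons]
      have h1 : ∀ p c, ∑ q, F.Δ p q a * (F.Δ q b c * f (p :: c :: l)) =
          ∑ s, F.Δ a b s * (F.Δ p c s * f (p :: c :: l)) := by
        intro p c
        have h2 := congrArg (fun r => r * f (p :: c :: l)) (F.fr a b p c)
        simp only [Finset.sum_mul] at h2
        calc ∑ q, F.Δ p q a * (F.Δ q b c * f (p :: c :: l)) =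
            ∑ q, F.Δ p q a * F.Δ q b c * f (p :: c :: l) :=
              Finset.sum_congr rfl fun q _ => by ring
          _ = ∑ s, F.Δ p c s * F.Δ a b s * f (p :: c :: l) := h2
          _ = _ := Finset.sum_congr rfl fun s _ => by ring
      calc ∑ p, ∑ q, F.Δ p q a * ∑ c, F.Δ q b c * f (p :: c :: l) =
          ∑ p, ∑ q, ∑ c, F.Δ p q a * (F.Δ q b c * f (p :: c :: l)) := by
            simp only [Finset.mul_sum]
        _ = ∑ p, ∑ c, ∑ q, F.Δ p q a * (F.Δ q b c * f (p :: c :: l)) :=
            Finset.sum_congr rfl fun p _ => Finset.sum_comm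
        _ = ∑ p, ∑ c, ∑ s, F.Δ a b s * (F.Δ p c s * f (p :: c :: l)) :=
            Finset.sum_congr rfl fun p _ => Finset.sum_congr rfl fun c _ => h1 p c
        _ = ∑ p, ∑ s, ∑ c, F.Δ a b s * (F.Δ p c s * f (p :: c :: l)) :=
            Finset.sum_congr rfl fun p _ => Finset.sum_comm
        _ = ∑ s, ∑ p, ∑ c, F.Δ a b s * (F.Δ p c s * f (p :: c :: l)) := Finset.sum_comm
        _ = ∑ s, F.Δ a b s * ∑ p, ∑ c, F.Δ p c s * f (p :: c :: l) := by
            simp only [Finset.mul_sum]
  | succ i ih =>
    funext l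
    cases l with
    | nil => rfl
    | cons s l =>
      rw [mrg_succ_cons, dup_succ_fun, dup_succ_cons, mrg_succ_fun, ih (fun l' => f (s :: l'))]

theorem mrg_dup_lt (j i : ℕ) (h : i + 1 ≤ j) :
    mrg F (j + 1) (dup F i f) = dup F i (mrg F j f) := by
  induction i generalizing j f with
  | zero =>
    obtain ⟨j, rfl⟩ : ∃ k, j = k + 1 := ⟨j - 1, by omega⟩
    funext l
    match l with
    | [] => rfl
    | [a] => rfl
    | a :: b :: l =>
      rw [mrg_succ_cons, mrg_succ_cons, dup_zero_cons]
      simp only [dup_zero_cons, mrg_succ_cons]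
      rw [mrg_sum F Finset.univ (F.Δ a b) (fun c l' => f (c :: l')) j]
  | succ i ih =>
    obtain ⟨j, rfl⟩ : ∃ k, j = k + 1 := ⟨j - 1, by omega⟩
    funext l
    cases l with
    | nil => rfl
    | cons s l =>
      rw [mrg_succ_cons, dup_succ_fun, dup_succ_cons, mrg_succ_fun,
        ih (fun l' => f (s :: l')) j (Nat.succ_le_succ_iff.1 h)]

theorem mrg_dup_gt (j i : ℕ) (h : j + 1 ≤ i) :
    mrg F j (dup F (i + 1) f) = dup F i (mrg F j f) := by
  induction j generalizing i f with
  | zero =>
    obtain ⟨i, rfl⟩ : ∃ k, i = k + 1 := ⟨i - 1, by omega⟩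
    funext l
    cases l with
    | nil => rfl
    | cons c l =>
      rw [mrg_zero_cons, dup_succ_cons]
      simp only [dup_succ_cons, mrg_zero_cons]
      rw [dup_sum2 F i (fun a b => F.Δ a b c) (fun a b l' => f (a :: b :: l'))]
  | succ j ih =>
    obtain ⟨i, rfl⟩ : ∃ k, i = k + 1 := ⟨i - 1, by omega⟩
    funext l
    cases l with
    | nil => rfl
    | cons s l =>
      rw [mrg_succ_cons, dup_succ_fun, dup_succ_cons, mrg_succ_fun,
        ih (fun l' => f (s :: l')) i (Nat.succ_le_succ_iff.1 h)]

end Pool.Agent.Rp
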