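import Pool.Agent.Lib.MP_dbdc94_co.Fr

/-!
# Project RP: two special Frobenius algebras
-/

set_option autoImplicit false

namespace Pool.Agent.Rp

/-- the functions on a set with two elements; parameter `2` -/
def frCol : Fr Bool 2 where
  η _ := 1
  Δ a b c := if a = b ∧ b = c then 1 else 0
  norm := by simp
  uL := by intro b c; cases b <;> cases c <;> simp
  uR := by intro a c; cases a <;> cases c <;> simp
  sp := by intro c d; cases c <;> cases d <;> simp
  fr := by intro a b c d; cases a <;> cases b <;> cases c <;> cases d <;> simp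

/-- the algebra of a matrix `G` of order two with `G * G = 1` -/
private theorem inst_of_G (G : Bool → Bool → ℝ) (r x : ℝ) (hr : r ≠ 0)
    (hG : ∀ a c, ∑ b, G a b * G b c = if a = c then 1 else 0)
    (hG2 : ∑ a, ∑ b, G a b ^ 2 = r ^ 2) (hx : r ^ 2 * r ^ 2 = x) :
    Nonempty (Fr (Bool × Bool) x) := by
  have hri : r * r⁻¹ = 1 := mul_inv_cancel₀ hr
  refine ⟨{
    η := fun s => r * G s.1 s.2
    Δ := fun a b c => if c.1 = a.1 ∧ c.2 = b.2 then r⁻¹ * G a.2 b.1 else 0
    norm := ?_
    uL := ?_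
    uR := ?_
    sp := ?_
    fr := ?_ }⟩
  · simp only [Fintype.sum_prod_type, Fintype.sum_bool] at hG2 ⊢
    rw [← hx]
    linear_combination (r ^ 2) * hG2
  · rintro ⟨b1, b2⟩ ⟨c1, c2⟩
    simp only [Fintype.sum_prod_type, Prod.mk.injEq]
    have h1 := hG c1 b1
    by_cases h2 : c2 = b2
    · subst h2
      simp only [and_true]
      have h3 : ∑ a : Bool, ∑ b : Bool, r * G a b * (if c1 = a then r⁻¹ * G b b1 else 0) =
          ∑ b : Bool, G c1 b * G b b1 := by
        rw [Finset.sum_eq_single c1]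
        · refine Finset.sum_congr rfl fun b _ => ?_
          rw [if_pos rfl]
          linear_combination (G c1 b * G b b1) * hri
        · intro a _ ha
          refine Finset.sum_eq_zero fun b _ => ?_
          rw [if_neg (Ne.symm ha), mul_zero]
        · intro h; exact absurd (Finset.mem_univ _) h
      rw [h3, h1]
      simp only [eq_comm]
    · have h4 : ¬ (b2 = c2) := fun h => h2 h.symm
      simp [h2, h4]
  · rintro ⟨a1, a2⟩ ⟨c1, c2⟩
    simp only [Fintype.sum_prod_type, Prod.mk.injEq]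
    have h1 := hG a2 c2
    by_cases h2 : c1 = a1
    · subst h2
      simp only [true_and]
      have h3 : ∑ a : Bool, ∑ b : Bool, r * G a b * (if c2 = b then r⁻¹ * G a2 a else 0) =
          ∑ b : Bool, G a2 b * G b c2 := by
        refine Finset.sum_congr rfl fun a _ => ?_
        rw [Finset.sum_eq_single c2]
        · rw [if_pos rfl]
          linear_combination (G a2 a * G a c2) * hri
        · intro b _ hb
          rw [if_neg (Ne.symm hb), mul_zero]
        · intro h; exact absurd (Finset.mem_univ _) h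
      rw [h3, h1]
    · have h4 : ¬ (a1 = c1) := fun h => h2 h.symm
      simp [h2, h4]
  · rintro ⟨c1, c2⟩ ⟨d1, d2⟩
    simp only [Fintype.sum_prod_type, Prod.mk.injEq, Fintype.sum_bool]
    simp only [Fintype.sum_bool] at hG2
    have h5 : r⁻¹ * r⁻¹ * (G true true ^ 2 + G true false ^ 2 + (G false true ^ 2 + G false false ^ 2)) = 1 := by
      rw [hG2]
      linear_combination (r * r⁻¹ + 1) * hri
    cases c1 <;> cases c2 <;> cases d1 <;> cases d2 <;> simp <;> linear_combination h5
  · rintro ⟨a1, a2⟩ ⟨b1, b2⟩ ⟨c1, c2⟩ ⟨d1, d2⟩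
    simp only [Fintype.sum_prod_type]
    have h6 : ∑ e1 : Bool, ∑ e2 : Bool, (if a1 = c1 ∧ a2 = e2 then r⁻¹ * G c2 e1 else 0) *
        (if d1 = e1 ∧ d2 = b2 then r⁻¹ * G e2 b1 else 0) =
        if a1 = c1 ∧ d2 = b2 then (r⁻¹ * G c2 d1) * (r⁻¹ * G a2 b1) else 0 := by
      rw [Finset.sum_eq_single d1, Finset.sum_eq_single a2]
      · by_cases h1 : a1 = c1 <;> by_cases h2 : d2 = b2 <;> simp [h1, h2]
      · intro e _ he
        have h7 : ¬ (a2 = e) := fun h => he h.symm
        simp [h7]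
      · intro h; exact absurd (Finset.mem_univ _) h
      · intro e _ he
        refine Finset.sum_eq_zero fun e' _ => ?_
        have h7 : ¬ (d1 = e) := fun h => he h.symm
        simp [h7]
      · intro h; exact absurd (Finset.mem_univ _) h
    have h8 : ∑ s1 : Bool, ∑ s2 : Bool, (if s1 = c1 ∧ s2 = d2 then r⁻¹ * G c2 d1 else 0) *
        (if s1 = a1 ∧ s2 = b2 then r⁻¹ * G a2 b1 else 0) =
        if a1 = c1 ∧ d2 = b2 then (r⁻¹ * G c2 d1) * (r⁻¹ * G a2 b1) else 0 := by
      rw [Finset.sum_eq_single c1, Finset.sum_eq_single d2]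
      · by_cases h1 : a1 = c1
        · by_cases h2 : d2 = b2 <;> simp [h1, h2]
        · have h7 : ¬ (c1 = a1) := fun h => h1 h.symm
          simp [h1, h7]
      · intro e _ he
        simp [he]
      · intro h; exact absurd (Finset.mem_univ _) h
      · intro e _ he
        refine Finset.sum_eq_zero fun e' _ => ?_
        simp [he]
      · intro h; exact absurd (Finset.mem_univ _) h
    exact h6.trans h8.symm

/-- The `2 × 2` matrices, parameter `x ≥ 4`. Let `δ = √x ≥ 2` and `δ = t ^ 2 + t⁻¹ ^ 2` with `t > 0`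
(`t ^ 2` is a root of `v ^ 2 - δ v + 1`), `G false true = t`, `G true false = t⁻¹` and `0` for equal
arguments; then `∑ b, G a b * G b c = if a = c then 1 else 0` and `∑ a, ∑ b, G a b ^ 2 = δ`.
With `r ^ 2 = δ`, `r > 0`, take `η (L, R) = r * G L R` and
`Δ (L1, R1) (L2, R2) (L, R) = if L = L1 ∧ R = R2 then r⁻¹ * G R1 L2 else 0`.
(`fr`: both sides are `δ⁻¹ G (c.2) (d.1) G (a.2) (b.1)` if `a.1 = c.1 ∧ d.2 = b.2`, else `0`.) -/
theorem exists_frTL (x : ℝ) (hx : 4 ≤ x) : Nonempty (Fr (Bool × Bool) x) := by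
  set δ := √x with hδ
  have hδ2 : δ * δ = x := Real.mul_self_sqrt (by linarith)
  have hδ0 : 0 ≤ δ := Real.sqrt_nonneg x
  have hδ3 : 2 ≤ δ := by nlinarith
  have hdisc : 0 ≤ δ ^ 2 - 4 := by nlinarith
  set s := √(δ ^ 2 - 4) with hs
  have hs2 : s * s = δ ^ 2 - 4 := Real.mul_self_sqrt hdisc
  have hs0 : 0 ≤ s := Real.sqrt_nonneg _
  have hv : 0 < (δ + s) / 2 := by linarith
  set t := √((δ + s) / 2) with ht
  have ht2 : t ^ 2 = (δ + s) / 2 := Real.sq_sqrt hv.le
  have ht0 : 0 < t := Real.sqrt_pos.2 hv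
  have hti : t * t⁻¹ = 1 := mul_inv_cancel₀ ht0.ne'
  have hti2 : t⁻¹ ^ 2 = (δ - s) / 2 := by
    have h1 : t ^ 2 * ((δ - s) / 2) = 1 := by rw [ht2]; linear_combination (-1 / 4) * hs2
    have h2 : t ^ 2 * t⁻¹ ^ 2 = 1 := by rw [← mul_pow, hti, one_pow]
    exact mul_left_cancel₀ (pow_ne_zero 2 ht0.ne') (h2.trans h1.symm)
  set r := √δ with hr
  have hr2 : r ^ 2 = δ := Real.sq_sqrt hδ0
  have hr0 : 0 < r := Real.sqrt_pos.2 (by linarith)
  refine inst_of_G (fun a b => if a = b then 0 else if a then t⁻¹ else t) r x hr0.ne' ?_ ?_ ?_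
  · intro a c
    cases a <;> cases c <;> simp [ht0.ne']
  · rw [hr2]
    simp only [Fintype.sum_bool]
    simp only [if_true, Bool.true_eq_false, Bool.false_eq_true, if_false]
    rw [hti2, ht2]
    ring
  · rw [hr2, hδ2]

end Pool.Agent.Rp
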