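import Pool.Agent.Lib.MP_dbdc94_co.Seq
import Pool.Agent.Lib.MP_dbdc94_co.Inst

/-!
# Project RP: every non-crossing partition comes from a sequence
-/

set_option autoImplicit false

namespace Pool.Agent.Rp

/-- A non-crossing partition of `n + 1` points has a singleton or two neighbours in the same block:
otherwise take `i < k` in the same block with `k - i` minimal (`k > i + 1`); `i + 1` is not a
singleton, let `m ≠ i + 1` be in its block: `i < m < k`, `m = i`, `m = k` contradict the minimality
or the assumption, `m < i` and `m > k` contradict `NC` (it gives `i ~ i + 1`). -/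
theorem nc_exists {n : ℕ} (π : Setoid (Fin (n + 1))) (h : NC π) :
    (∃ j, ∀ k, π.r j k → k = j) ∨
      ∃ j : Fin n, π.r j.castSucc j.succ := by
  classical
  by_contra hcon
  push Not at hcon
  obtain ⟨h1, h2⟩ := hcon
  have hadj : ∀ a b : Fin (n + 1), (b : ℕ) = a + 1 → ¬ π.r a b := by
    intro a b hab hr
    have ha : (a : ℕ) < n := by
      have := b.2
      omega
    refine h2 ⟨a, ha⟩ ?_
    have e1 : (⟨a, ha⟩ : Fin n).castSucc = a := Fin.ext rfl
    have e2 : (⟨a, ha⟩ : Fin n).succ = b := Fin.ext (by rw [Fin.val_succ, hab])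
    rw [e1, e2]
    exact hr
  have hex : ∃ d : ℕ, ∃ i k : Fin (n + 1), i < k ∧ π.r i k ∧ (k : ℕ) - i = d := by
    obtain ⟨k, hk, hk0⟩ := h1 0
    exact ⟨_, 0, k, Fin.pos_of_ne_zero hk0, hk, rfl⟩
  obtain ⟨i, k, hik, hr, hd⟩ := Nat.find_spec hex
  have hmin : ∀ a b : Fin (n + 1), a < b → π.r a b → Nat.find hex ≤ (b : ℕ) - a :=
    fun a b hab hr' => Nat.find_min' hex ⟨a, b, hab, hr', rfl⟩
  have hik' : (i : ℕ) < k := hik
  have hne : (k : ℕ) ≠ i + 1 := fun h3 => hadj i k h3 hr
  have hi1 : (i : ℕ) + 1 < n + 1 := by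
    have := k.2
    omega
  obtain ⟨m, hm, hm0⟩ := h1 ⟨i + 1, hi1⟩
  set m0 : Fin (n + 1) := ⟨i + 1, hi1⟩ with hm0d
  have hv : (m0 : ℕ) = i + 1 := rfl
  have him0 : i < m0 := Fin.lt_def.2 (by omega)
  have hm0k : m0 < k := Fin.lt_def.2 (by omega)
  have hmm : (m : ℕ) ≠ i + 1 := fun h3 => hm0 (Fin.ext (by rw [h3]))
  rcases lt_trichotomy (m : ℕ) i with hc | hc | hc
  · have h3 : π.r m i := h m i m0 k (Fin.lt_def.2 hc) him0 hm0k (π.symm hm) hr
    exact hadj i m0 hv (π.symm (π.trans hm h3))
  · have h3 : m = i := Fin.ext hc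
    rw [h3] at hm
    exact hadj i m0 hv (π.symm hm)
  · rcases lt_trichotomy (m : ℕ) k with hc' | hc' | hc'
    · have h3 := hmin m0 m (Fin.lt_def.2 (by omega)) hm
      omega
    · have h3 : m = k := Fin.ext hc'
      rw [h3] at hm
      have h4 := hmin m0 k hm0k hm
      omega
    · have h3 : π.r i m0 := h i m0 k m him0 hm0k (Fin.lt_def.2 hc') hr hm
      exact hadj i m0 hv h3

private theorem ins_erase (j : ℕ) : ∀ (f : List Bool → ℝ) (l : List Bool), j < l.length →
    ins frCol j f l = f (l.eraseIdx j) := by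
  induction j with
  | zero =>
    intro f l hl
    cases l with
    | nil => simp at hl
    | cons s l => simp [ins, frCol]
  | succ j ih =>
    intro f l hl
    cases l with
    | nil => simp at hl
    | cons s l =>
      have hl' : j < l.length := by simpa using hl
      change ins frCol j (fun l' => f (s :: l')) l = _
      rw [ih _ _ hl', List.eraseIdx_cons_succ]

private theorem dup_erase (j : ℕ) : ∀ (f : List Bool → ℝ) (l : List Bool) (hl : j + 1 < l.length),
    dup frCol j f l =
      if l[j]'(Nat.lt_of_succ_lt hl) = l[j + 1] then f (l.eraseIdx (j + 1)) else 0 := by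
  induction j with
  | zero =>
    intro f l hl
    match l with
    | [] => simp at hl
    | [_] => simp at hl
    | a :: b :: l =>
      change (∑ c, frCol.Δ a b c * f (c :: l)) = _
      simp only [frCol, List.getElem_cons_zero, List.getElem_cons_succ, List.eraseIdx_cons_succ,
        List.eraseIdx_cons_zero, zero_add]
      by_cases hab : a = b
      · subst hab
        rw [Finset.sum_eq_single_of_mem a (Finset.mem_univ _)]
        · simp
        · intro c _ hc
          rw [if_neg (fun h3 => hc h3.2.symm), zero_mul]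
      · rw [if_neg hab]
        refine Finset.sum_eq_zero fun c _ => ?_
        rw [if_neg (fun h3 => hab h3.1), zero_mul]
  | succ j ih =>
    intro f l hl
    cases l with
    | nil => simp at hl
    | cons s l =>
      have hl' : j + 1 < l.length := by simpa using hl
      change dup frCol j (fun l' => f (s :: l')) l = _
      rw [ih _ _ hl']
      simp only [List.getElem_cons_succ, List.eraseIdx_cons_succ]

private theorem ofFn_erase {n : ℕ} (j : Fin (n + 1)) (ε : Fin (n + 1) → Bool) :
    (List.ofFn ε).eraseIdx j = List.ofFn fun i => ε (j.succAbove i) := by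
  apply List.ext_getElem
  · rw [List.length_eraseIdx_of_lt (by rw [List.length_ofFn]; exact j.2)]
    simp
  · intro i h1 h2
    rw [List.getElem_eraseIdx]
    have hi : i < n := by simpa using h2
    split_ifs with h3
    · rw [List.getElem_ofFn, List.getElem_ofFn]
      have h4 : (⟨i, hi⟩ : Fin n).castSucc < j := Fin.lt_def.2 h3
      rw [Fin.succAbove_of_castSucc_lt _ _ h4]
      rfl
    · rw [List.getElem_ofFn, List.getElem_ofFn]
      have h4 : j ≤ (⟨i, hi⟩ : Fin n).castSucc := Fin.le_def.2 (not_lt.1 h3)
      rw [Fin.succAbove_of_le_castSucc _ _ h4]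
      rfl

/-- Values of `ins` and `dup` at `List.ofFn`: for `frCol`. -/
theorem ins_ofFn {n : ℕ} (j : Fin (n + 1)) (f : List Bool → ℝ) (ε : Fin (n + 1) → Bool) :
    ins frCol j f (List.ofFn ε) = f (List.ofFn fun i => ε (j.succAbove i)) := by
  rw [ins_erase _ _ _ (by rw [List.length_ofFn]; exact j.2), ofFn_erase]

theorem dup_ofFn {n : ℕ} (j : Fin n) (f : List Bool → ℝ) (ε : Fin (n + 1) → Bool) :
    dup frCol j f (List.ofFn ε) =
      if ε j.castSucc = ε j.succ then f (List.ofFn fun i => ε (j.succ.succAbove i)) else 0 := by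
  rw [dup_erase _ _ _ (by rw [List.length_ofFn]; exact Nat.succ_lt_succ j.2)]
  have h1 := ofFn_erase j.succ ε
  rw [Fin.val_succ] at h1
  rw [h1, List.getElem_ofFn, List.getElem_ofFn]
  rfl

/-- Induction on `n` with `nc_exists`: restrict `π` along `j.succAbove` if `j` is a singleton
(`Op.i j`), and along `j.succ.succAbove` if `j.castSucc`, `j.succ` are in the same block
(`Op.d j`). -/
theorem nc_gen {n : ℕ} (π : Setoid (Fin n)) (h : NC π) : ∃ s, Val s n ∧
    ∀ ε : Fin n → Bool, (vec frCol s (List.ofFn ε) = 1 ∧ ∀ i j, π.r i j → ε i = ε j) ∨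
      (vec frCol s (List.ofFn ε) = 0 ∧ ¬ ∀ i j, π.r i j → ε i = ε j) := by
  induction n with
  | zero =>
    refine ⟨[], Val.nil, fun ε => Or.inl ⟨?_, fun i => i.elim0⟩⟩
    simp [vec]
  | succ n ih =>
    have hNC : ∀ j : Fin (n + 1), NC (Setoid.comap j.succAbove π) := by
      intro j a b c d hab hbc hcd hac hbd
      have hm := Fin.strictMono_succAbove j
      exact h _ _ _ _ (hm hab) (hm hbc) (hm hcd) hac hbd
    rcases nc_exists π h with ⟨j, hj⟩ | ⟨j, hj⟩
    · obtain ⟨s, hs, hε⟩ := ih (Setoid.comap j.succAbove π) (hNC j)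
      refine ⟨Op.i j :: s, Val.i s n j hs (Nat.lt_succ_iff.1 j.2), fun ε => ?_⟩
      have hv : vec frCol (Op.i (j : ℕ) :: s) (List.ofFn ε) =
          vec frCol s (List.ofFn fun i => ε (j.succAbove i)) := ins_ofFn j _ ε
      rw [hv]
      have hiff : (∀ a b, π.r a b → ε a = ε b) ↔
          ∀ a b, (Setoid.comap j.succAbove π).r a b → ε (j.succAbove a) = ε (j.succAbove b) := by
        constructor
        · intro h1 a b hab
          exact h1 _ _ hab
        · intro h1 a b hab
          rcases eq_or_ne a j with rfl | haj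
          · rw [hj b hab]
          · rcases eq_or_ne b j with rfl | hbj
            · rw [hj a (π.symm hab)]
            · obtain ⟨a', rfl⟩ := Fin.exists_succAbove_eq haj
              obtain ⟨b', rfl⟩ := Fin.exists_succAbove_eq hbj
              exact h1 a' b' hab
      rw [hiff]
      exact hε _
    · obtain ⟨s, hs, hε⟩ := ih (Setoid.comap j.succ.succAbove π) (hNC j.succ)
      refine ⟨Op.d j :: s, Val.d s n j hs j.2, fun ε => ?_⟩
      have hv : vec frCol (Op.d (j : ℕ) :: s) (List.ofFn ε) =
          if ε j.castSucc = ε j.succ then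
            vec frCol s (List.ofFn fun i => ε (j.succ.succAbove i)) else 0 := dup_ofFn j _ ε
      rw [hv]
      by_cases hc : ε j.castSucc = ε j.succ
      · rw [if_pos hc]
        have hrep : ∀ a : Fin (n + 1), ∃ i : Fin n, π.r a (j.succ.succAbove i) ∧
            ε a = ε (j.succ.succAbove i) := by
          intro a
          rcases eq_or_ne a j.succ with rfl | ha
          · refine ⟨j, ?_, ?_⟩
            · rw [Fin.succAbove_succ_self]
              exact π.symm hj
            · rw [Fin.succAbove_succ_self]
              exact hc.symm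
          · obtain ⟨i, rfl⟩ := Fin.exists_succAbove_eq ha
            exact ⟨i, π.refl _, rfl⟩
        have hiff : (∀ a b, π.r a b → ε a = ε b) ↔
            ∀ a b, (Setoid.comap j.succ.succAbove π).r a b →
              ε (j.succ.succAbove a) = ε (j.succ.succAbove b) := by
          constructor
          · intro h1 a b hab
            exact h1 _ _ hab
          · intro h1 a b hab
            obtain ⟨a', ha1, ha2⟩ := hrep a
            obtain ⟨b', hb1, hb2⟩ := hrep b
            rw [ha2, hb2]
            exact h1 a' b' (π.trans (π.symm ha1) (π.trans hab hb1))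
        rw [hiff]
        exact hε _
      · rw [if_neg hc]
        exact Or.inr ⟨rfl, fun h1 => hc (h1 _ _ hj)⟩

end Pool.Agent.Rp
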