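import Pool.Agent.Lib.MP_dbdc94_co.Ext2
import Pool.Agent.Lib.MP_dbdc94_co.Cnt

/-!
# Project RP: chromatic polynomials exist, the polynomial of a union
-/

set_option autoImplicit false

open Polynomial

namespace Pool.Agent.Rp

/-- two polynomials which agree at all natural numbers are equal
(`Polynomial.eq_of_infinite_eval_eq`) -/
theorem isChrom_unique {V : Type} (G : SimpleGraph V) (P Q : ℝ[X]) (hP : IsChrom G P)
    (hQ : IsChrom G Q) : P = Q := by
  refine Polynomial.eq_of_infinite_eval_eq P Q ?_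
  refine Set.infinite_of_injective_forall_mem (f := fun q : ℕ => (q : ℝ)) Nat.cast_injective
    fun q => ?_
  rw [Set.mem_ofPred_eq, hP q, hQ q]

/-- isomorphic graphs have the same number of colourings -/
theorem isChrom_iso {V V' : Type} (G : SimpleGraph V) (G' : SimpleGraph V') (e : G ≃g G')
    (P : ℝ[X]) (hP : IsChrom G' P) : IsChrom G P := by
  intro q
  rw [hP q]
  refine congrArg _ (Nat.card_congr ?_)
  exact
    { toFun := fun c => c.comp e.toHom
      invFun := fun c => c.comp e.symm.toHom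
      left_inv := fun c => by
        ext v
        simp
      right_inv := fun c => by
        ext v
        simp }

/-- the colouring of the union with the given restrictions -/
def gcol {n : ℕ} {X Y : Type} {q : ℕ} (ε : Fin n → Fin q) (a : Fin n ⊕ X → Fin q)
    (b : Fin n ⊕ Y → Fin q) : Fin n ⊕ (X ⊕ Y) → Fin q :=
  Sum.elim ε (Sum.elim (fun x => a (Sum.inr x)) fun y => b (Sum.inr y))

theorem gcol_incL {n : ℕ} {X Y : Type} {q : ℕ} {ε : Fin n → Fin q} {a : Fin n ⊕ X → Fin q}
    (b : Fin n ⊕ Y → Fin q) (ha : ∀ i, a (Sum.inl i) = ε i) (v : Fin n ⊕ X) :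
    gcol ε a b (incL n X Y v) = a v := by
  rcases v with i | x
  · exact (ha i).symm
  · rfl

theorem gcol_incR {n : ℕ} {X Y : Type} {q : ℕ} {ε : Fin n → Fin q} (a : Fin n ⊕ X → Fin q)
    {b : Fin n ⊕ Y → Fin q} (hb : ∀ i, b (Sum.inl i) = ε i) (v : Fin n ⊕ Y) :
    gcol ε a b (incR n X Y v) = b v := by
  rcases v with i | x
  · exact (hb i).symm
  · rfl

theorem gcol_valid {n : ℕ} {X Y : Type} (N : SimpleGraph (Fin n ⊕ X))
    (U : SimpleGraph (Fin n ⊕ Y)) (q : ℕ) (ε : Fin n → Fin q) (a : BCol N q ε) (b : BCol U q ε)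
    {v w : Fin n ⊕ (X ⊕ Y)} (h : (glue N U).Adj v w) :
    gcol ε a.1 b.1 v ≠ gcol ε a.1 b.1 w := by
  rw [glue, SimpleGraph.sup_adj, SimpleGraph.map_adj, SimpleGraph.map_adj] at h
  rcases h with ⟨v', w', h, rfl, rfl⟩ | ⟨v', w', h, rfl, rfl⟩
  · rw [gcol_incL b.1 a.2.2, gcol_incL b.1 a.2.2]
    exact a.2.1 _ _ h
  · rw [gcol_incR a.1 b.2.2, gcol_incR a.1 b.2.2]
    exact b.2.1 _ _ h

/-- the colourings with boundary values `ε` -/
def gluEquiv {n : ℕ} {X Y : Type} (N : SimpleGraph (Fin n ⊕ X))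
    (U : SimpleGraph (Fin n ⊕ Y)) (q : ℕ) (ε : Fin n → Fin q) :
    {c : (glue N U).Coloring (Fin q) // (fun i => c (Sum.inl i)) = ε} ≃
      BCol N q ε × BCol U q ε where
  toFun c := (⟨fun v => c.1 (incL n X Y v), fun a b h => c.1.valid (by
      rw [glue, SimpleGraph.sup_adj]
      exact Or.inl ((SimpleGraph.map_adj _ _ _ _).2 ⟨a, b, h, rfl, rfl⟩)),
      fun i => congrFun c.2 i⟩,
    ⟨fun v => c.1 (incR n X Y v), fun a b h => c.1.valid (by
      rw [glue, SimpleGraph.sup_adj]
      exact Or.inr ((SimpleGraph.map_adj _ _ _ _).2 ⟨a, b, h, rfl, rfl⟩)),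
      fun i => congrFun c.2 i⟩)
  invFun ab := ⟨SimpleGraph.Coloring.mk (gcol ε ab.1.1 ab.2.1)
    (fun {_ _} h => gcol_valid N U q ε ab.1 ab.2 h), rfl⟩
  left_inv c := by
    apply Subtype.ext
    apply DFunLike.ext
    intro v
    rcases v with i | x | y
    · exact (congrFun c.2 i).symm
    · rfl
    · rfl
  right_inv ab := by
    apply Prod.ext
    · apply Subtype.ext
      funext v
      exact gcol_incL ab.2.1 ab.1.2.2 v
    · apply Subtype.ext
      funext v
      exact gcol_incR ab.1.1 ab.2.2.2 v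

/-- Colourings of the union: pairs of colourings with the same boundary values. -/
theorem glue_count {n : ℕ} {X Y : Type} [Finite X] [Finite Y] (N : SimpleGraph (Fin n ⊕ X))
    (U : SimpleGraph (Fin n ⊕ Y)) (q : ℕ) :
    (Nat.card ((glue N U).Coloring (Fin q)) : ℝ) =
      ∑ ε : Fin n → Fin q, (Nat.card (BCol N q ε) : ℝ) * (Nat.card (BCol U q ε) : ℝ) := by
  classical
  have : Finite ((glue N U).Coloring (Fin q)) :=
    Finite.of_injective (fun c v => c v) DFunLike.coe_injective
  rw [← Nat.card_congr (Equiv.sigmaFiberEquiv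
    (fun (c : (glue N U).Coloring (Fin q)) (i : Fin n) => c (Sum.inl i))), Nat.card_sigma]
  push_cast
  refine Finset.sum_congr rfl fun ε _ => ?_
  rw [← Nat.cast_mul, ← Nat.card_prod, Nat.card_congr (gluEquiv N U q ε)]

end Pool.Agent.Rp
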