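import Pool.Agent.Lib.MP_dbdc94_co.Glue

/-!
# Project RP: the polynomial of a union, existence
-/

set_option autoImplicit false

open Polynomial

namespace Pool.Agent.Rp

/-- two polynomials with the same values at all natural numbers -/
theorem eq_of_eval_nat {P Q : ℝ[X]} (h : ∀ q : ℕ, P.eval (q : ℝ) = Q.eval (q : ℝ)) : P = Q := by
  refine Polynomial.eq_of_infinite_eval_eq P Q ?_
  refine Set.Infinite.mono (s := Set.range (fun q : ℕ => (q : ℝ))) ?_
    (Set.infinite_range_of_injective Nat.cast_injective)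
  rintro _ ⟨q, rfl⟩
  exact h q

theorem glue_nat {n : ℕ} {X Y : Type} [Finite X] [Finite Y] (N : SimpleGraph (Fin n ⊕ X))
    (U : SimpleGraph (Fin n ⊕ Y)) (E : Finset (Sym2 (Fin n ⊕ X))) (E' : Finset (Sym2 (Fin n ⊕ Y)))
    (hE : ∀ e, e ∈ E ↔ e ∈ N.edgeSet) (hE' : ∀ e, e ∈ E' ↔ e ∈ U.edgeSet) (q : ℕ) :
    (Nat.card ((glue N U).Coloring (Fin q)) : ℝ) =
      ∑ A ∈ E.powerset, ∑ A' ∈ E'.powerset, ((-1) ^ A.card * (q : ℝ) ^ mA A) *
      ((-1) ^ A'.card * (q : ℝ) ^ mA A') * (q : ℝ) ^ Nat.card (Quotient (piA A ⊔ piA A')) := by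
  classical
  rw [glue_count]
  simp only [ext_count N E hE, ext_count U E' hE', Finset.sum_mul_sum]
  rw [Finset.sum_comm]
  refine Finset.sum_congr rfl (fun A _ => ?_)
  rw [Finset.sum_comm]
  refine Finset.sum_congr rfl (fun A' _ => ?_)
  rw [← cnt_sup n q (piA A) (piA A'), Finset.mul_sum]
  refine Finset.sum_congr rfl (fun ε _ => ?_)
  ring

/-- The polynomial of the union: both sides agree at all natural numbers (`glue_count`,
`ext_count`, `cnt_sup`). -/
theorem glue_poly {n : ℕ} {X Y : Type} [Finite X] [Finite Y] (N : SimpleGraph (Fin n ⊕ X))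
    (U : SimpleGraph (Fin n ⊕ Y)) (E : Finset (Sym2 (Fin n ⊕ X))) (E' : Finset (Sym2 (Fin n ⊕ Y)))
    (hE : ∀ e, e ∈ E ↔ e ∈ N.edgeSet) (hE' : ∀ e, e ∈ E' ↔ e ∈ U.edgeSet)
    (P : ℝ[X]) (hP : IsChrom (glue N U) P) (x : ℝ) :
    P.eval x = ∑ A ∈ E.powerset, ∑ A' ∈ E'.powerset, ((-1) ^ A.card * x ^ mA A) *
      ((-1) ^ A'.card * x ^ mA A') * x ^ Nat.card (Quotient (piA A ⊔ piA A')) := by
  have h : P = ∑ A ∈ E.powerset, ∑ A' ∈ E'.powerset,
      ((-1) ^ A.card * (Polynomial.X : ℝ[X]) ^ mA A) *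
      ((-1) ^ A'.card * (Polynomial.X : ℝ[X]) ^ mA A') *
      (Polynomial.X : ℝ[X]) ^ Nat.card (Quotient (piA A ⊔ piA A')) := by
    refine eq_of_eval_nat (fun q => ?_)
    rw [hP q, glue_nat N U E E' hE hE' q]
    simp only [Polynomial.eval_finsetSum, Polynomial.eval_mul, Polynomial.eval_pow,
      Polynomial.eval_X, Polynomial.eval_neg, Polynomial.eval_one]
  rw [h]
  simp only [Polynomial.eval_finsetSum, Polynomial.eval_mul, Polynomial.eval_pow,
    Polynomial.eval_X, Polynomial.eval_neg, Polynomial.eval_one]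

/-- Every finite graph has a chromatic polynomial: `G` is isomorphic to a graph on `Fin 0 ⊕ V`, and
the number of its colourings is given by `ext_count` with `n = 0`. -/
theorem exists_isChrom {V : Type} [Finite V] (G : SimpleGraph V) : ∃ P : ℝ[X], IsChrom G P := by
  classical
  let N : SimpleGraph (Fin 0 ⊕ V) := G.map (Function.Embedding.inr)
  let E : Finset (Sym2 (Fin 0 ⊕ V)) := (Set.toFinite N.edgeSet).toFinset
  have hE : ∀ e, e ∈ E ↔ e ∈ N.edgeSet := fun e => by simp [E]
  have hN : ∀ a b : V, N.Adj (Sum.inr a) (Sum.inr b) ↔ G.Adj a b := by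
    intro a b
    exact SimpleGraph.map_adj_apply (f := Function.Embedding.inr)
  refine ⟨∑ A ∈ E.powerset, ((-1) ^ A.card * (Polynomial.X : ℝ[X]) ^ mA A), fun q => ?_⟩
  have h1 : Nat.card (G.Coloring (Fin q)) = Nat.card (BCol N q (fun i => i.elim0)) := by
    refine Nat.card_congr
      { toFun := fun c => ⟨fun v => Sum.elim (fun i => i.elim0) c v, ?_, fun i => i.elim0⟩
        invFun := fun c => SimpleGraph.Coloring.mk (fun v => c.1 (Sum.inr v)) ?_
        left_inv := ?_
        right_inv := ?_ }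
    · rintro (i | a) (j | b) h
      · exact i.elim0
      · exact i.elim0
      · exact j.elim0
      · exact c.valid ((hN a b).1 h)
    · intro a b hab
      exact c.2.1 _ _ ((hN a b).2 hab)
    · intro c
      ext v
      rfl
    · rintro ⟨c, h⟩
      apply Subtype.ext
      funext v
      rcases v with i | v
      · exact i.elim0
      · rfl
  rw [h1, ext_count N E hE q]
  simp only [Polynomial.eval_finsetSum, Polynomial.eval_mul, Polynomial.eval_pow,
    Polynomial.eval_X, Polynomial.eval_neg, Polynomial.eval_one]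
  refine Finset.sum_congr rfl (fun A _ => ?_)
  rw [if_pos (fun i => i.elim0), mul_one]

end Pool.Agent.Rp
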