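import Pool.Agent.Lib.MP_dbdc94_co.Gen
import Pool.Agent.Lib.MP_dbdc94_co.Cnt

/-!
# Project RP: the Gram matrix of the non-crossing partitions
-/

set_option autoImplicit false

namespace Pool.Agent.Rp

/-- `ip` as a sum over functions: induction on `n` (`Fin.consEquiv` or `Fin.snocEquiv`,
`List.ofFn_succ`). -/
theorem ip_eq {S : Type} [Fintype S] (n : ℕ) (f g : List S → ℝ) :
    ip n f g = ∑ ε : Fin n → S, f (List.ofFn ε) * g (List.ofFn ε) := by
  induction n generalizing f g with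
  | zero =>
    rw [Fintype.sum_unique]
    simp [ip]
  | succ n ih =>
    rw [← (Fin.consEquiv fun _ : Fin (n + 1) => S).sum_comp, Fintype.sum_prod_type]
    show ∑ s, ip n (fun l => f (s :: l)) (fun l => g (s :: l)) = _
    refine Finset.sum_congr rfl fun s _ => ?_
    rw [ih]
    refine Finset.sum_congr rfl fun ε _ => ?_
    have h : List.ofFn ((Fin.consEquiv fun _ : Fin (n + 1) => S) (s, ε)) = s :: List.ofFn ε := by
      simp [Fin.consEquiv, List.ofFn_succ]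
    rw [h]

/-- `w π ε = vec F s (List.ofFn ε)` with `s = s (π)` from `nc_gen` (`0` if `π` is not non-crossing)
and `F` from `exists_frTL`. By `seq_gram` the sum is `x ^ k` with `2 ^ k = ∑ ε : Fin n → Bool, ...`
(`frCol`), and this is `2 ^ Nat.card (Quotient (π ⊔ σ))` by `nc_gen` and `cnt_sup_bool`. -/
theorem gram (n : ℕ) (x : ℝ) (hx : 4 ≤ x) :
    ∃ w : Setoid (Fin n) → (Fin n → Bool × Bool) → ℝ, ∀ π σ : Setoid (Fin n), NC π → NC σ →
      ∑ ε, w π ε * w σ ε = x ^ Nat.card (Quotient (π ⊔ σ)) := by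
  classical
  obtain ⟨F⟩ := exists_frTL x hx
  have hex : ∀ π : Setoid (Fin n), ∃ s : List Op, NC π → (Val s n ∧
      ∀ ε : Fin n → Bool, (vec frCol s (List.ofFn ε) = 1 ∧ ∀ i j, π.r i j → ε i = ε j) ∨
        (vec frCol s (List.ofFn ε) = 0 ∧ ¬ ∀ i j, π.r i j → ε i = ε j)) := by
    intro π
    by_cases h : NC π
    · obtain ⟨s, hs⟩ := nc_gen π h
      exact ⟨s, fun _ => hs⟩
    · exact ⟨[], fun h' => absurd h' h⟩
  choose s hs using hex
  refine ⟨fun π ε => vec F (s π) (List.ofFn ε), fun π σ hπ hσ => ?_⟩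
  obtain ⟨hπ1, hπ2⟩ := hs π hπ
  obtain ⟨hσ1, hσ2⟩ := hs σ hσ
  obtain ⟨k, hk⟩ := seq_gram hπ1 hσ1
  have h1 := hk Bool 2 frCol
  have h2 : ∀ (τ : Setoid (Fin n)) (t : List Op), (∀ ε : Fin n → Bool,
      (vec frCol t (List.ofFn ε) = 1 ∧ ∀ i j, τ.r i j → ε i = ε j) ∨
        (vec frCol t (List.ofFn ε) = 0 ∧ ¬ ∀ i j, τ.r i j → ε i = ε j)) →
      ∀ ε : Fin n → Bool, vec frCol t (List.ofFn ε) =
        if ∀ i j, τ.r i j → ε i = ε j then (1 : ℝ) else 0 := by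
    intro τ t h ε
    rcases h ε with ⟨ha, hb⟩ | ⟨ha, hb⟩
    · rw [ha, if_pos hb]
    · rw [ha, if_neg hb]
  rw [ip_eq, Finset.sum_congr rfl fun ε _ => by rw [h2 π _ hπ2 ε, h2 σ _ hσ2 ε]] at h1
  have h3 := cnt_sup_bool n π σ
  have h4 : (2 : ℝ) ^ k = 2 ^ Nat.card (Quotient (π ⊔ σ)) := by
    rw [← h1, ← h3]
  have h5 : k = Nat.card (Quotient (π ⊔ σ)) :=
    pow_right_injective₀ (by norm_num : (0 : ℝ) < 2) (by norm_num) h4
  rw [← h5, ← hk (Bool × Bool) x F, ip_eq]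

end Pool.Agent.Rp
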