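import Pool.Agent.Lib.MP_dbdc94_co.Glue2
import Pool.Agent.Lib.MP_dbdc94_co.Gram

/-!
# Project RP: reflection positivity
-/

set_option autoImplicit false

open Polynomial

namespace Pool.Agent.Rp

/-- the value of the polynomial of a union as a scalar product -/
theorem eval_glue {n : ℕ} {X Y : Type} [Finite X] [Finite Y] (N : SimpleGraph (Fin n ⊕ X))
    (U : SimpleGraph (Fin n ⊕ Y)) (hN : Crossless N) (hU : Crossless U)
    (E : Finset (Sym2 (Fin n ⊕ X))) (E' : Finset (Sym2 (Fin n ⊕ Y)))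
    (hE : ∀ e, e ∈ E ↔ e ∈ N.edgeSet) (hE' : ∀ e, e ∈ E' ↔ e ∈ U.edgeSet)
    (P : ℝ[X]) (hP : IsChrom (glue N U) P) (x : ℝ)
    (w : Setoid (Fin n) → (Fin n → Bool × Bool) → ℝ)
    (hw : ∀ π σ : Setoid (Fin n), NC π → NC σ →
      ∑ ε, w π ε * w σ ε = x ^ Nat.card (Quotient (π ⊔ σ))) :
    P.eval x = ∑ ε, (∑ A ∈ E.powerset, ((-1) ^ A.card * x ^ mA A) * w (piA A) ε) *
      (∑ A' ∈ E'.powerset, ((-1) ^ A'.card * x ^ mA A') * w (piA A') ε) := by
  rw [glue_poly N U E E' hE hE' P hP x]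
  simp only [Finset.sum_mul_sum]
  symm
  rw [Finset.sum_comm]
  refine Finset.sum_congr rfl (fun A hA => ?_)
  rw [Finset.sum_comm]
  refine Finset.sum_congr rfl (fun A' hA' => ?_)
  rw [← hw (piA A) (piA A')
    (nc_piA N hN A (fun e he => (hE e).1 (Finset.mem_powerset.1 hA he)))
    (nc_piA U hU A' (fun e he => (hE' e).1 (Finset.mem_powerset.1 hA' he))), Finset.mul_sum]
  refine Finset.sum_congr rfl (fun ε _ => ?_)
  ring

/-- Let `w` be as in `gram` and `f ε = ∑ A ∈ E.powerset, (-1) ^ A.card * x ^ mA A * w (piA A) ε`,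
`g` the same for `U`. By `glue_poly`, `nc_piA` and `gram` the three values are the sums of `f * g`,
`f * f`, `g * g`; Cauchy-Schwarz (`Finset.sum_mul_sq_le_sq_mul_sq`). -/
theorem refl_pos {n : ℕ} {X Y : Type} [Finite X] [Finite Y] (N : SimpleGraph (Fin n ⊕ X))
    (U : SimpleGraph (Fin n ⊕ Y)) (hN : Crossless N) (hU : Crossless U)
    (PNU PNN PUU : ℝ[X]) (h1 : IsChrom (glue N U) PNU) (h2 : IsChrom (glue N N) PNN)
    (h3 : IsChrom (glue U U) PUU) (x : ℝ) (hx : 4 ≤ x) :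
    0 ≤ PNN.eval x ∧ PNU.eval x ^ 2 ≤ PNN.eval x * PUU.eval x := by
  classical
  obtain ⟨w, hw⟩ := gram n x hx
  have hE : ∀ e, e ∈ (Set.toFinite N.edgeSet).toFinset ↔ e ∈ N.edgeSet := fun e => by simp
  have hE' : ∀ e, e ∈ (Set.toFinite U.edgeSet).toFinset ↔ e ∈ U.edgeSet := fun e => by simp
  rw [eval_glue N N hN hN _ _ hE hE PNN h2 x w hw, eval_glue N U hN hU _ _ hE hE' PNU h1 x w hw,
    eval_glue U U hU hU _ _ hE' hE' PUU h3 x w hw]
  refine ⟨Finset.sum_nonneg (fun ε _ => mul_self_nonneg _), ?_⟩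
  refine (Finset.sum_mul_sq_le_sq_mul_sq _ _ _).trans (le_of_eq ?_)
  simp only [sq]

end Pool.Agent.Rp
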