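import Pool.Agent.Lib.MP_dbdc94_co.Wd

/-!
# Project RP: deletion of a vertex (Woodall), the recursion
-/

set_option autoImplicit false

namespace Pool.Agent.Rp

variable {V : Type}

/-- exactly one earlier first occurrence, unless `i` itself is a first occurrence -/
private theorem wd2_inner {α : Type} [DecidableEq α] {k : ℕ} (f : Fin k → α) (i : Fin k) :
    (∑ j : Fin k, if j < i ∧ f i = f j ∧ ∀ l, l < j → f l ≠ f j then (1 : ℝ) else 0) =
      1 - if ∀ l, l < i → f l ≠ f i then (1 : ℝ) else 0 := by
  classical
  by_cases h : ∀ l, l < i → f l ≠ f i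
  · rw [if_pos h, sub_self]
    refine Finset.sum_eq_zero fun j _ => if_neg ?_
    rintro ⟨h1, h2, -⟩
    exact h j h1 h2.symm
  · rw [if_neg h, sub_zero]
    have hne : (Finset.univ.filter fun l : Fin k => f l = f i).Nonempty := ⟨i, by simp⟩
    obtain ⟨j, hj, hmin⟩ := Finset.exists_minimal hne
    have hj' : f j = f i := (Finset.mem_filter.1 hj).2
    have hmin' : ∀ l, l < j → f l ≠ f i := fun l hl e =>
      absurd (hmin (Finset.mem_filter.2 ⟨Finset.mem_univ _, e⟩) hl.le) (not_le.2 hl)
    have hji : j < i := by
      push Not at h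
      obtain ⟨l, hl, e⟩ := h
      by_contra hc
      exact hmin' l (lt_of_lt_of_le hl (not_lt.1 hc)) e
    rw [Finset.sum_eq_single j]
    · rw [if_pos]
      exact ⟨hji, hj'.symm, fun l hl e => hmin' l hl (e.trans hj')⟩
    · intro b _ hb
      refine if_neg ?_
      rintro ⟨h1, h2, h3⟩
      rcases lt_trichotomy b j with hlt | he | hgt
      · exact hmin' b hlt h2.symm
      · exact hb he
      · exact h3 j hgt (hj'.trans h2)
    · intro hn
      exact absurd (Finset.mem_univ _) hn

/-- the number of values is the number of the first occurrences -/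
private theorem wd2_first {α : Type} [DecidableEq α] {k : ℕ} (f : Fin k → α) :
    ((Finset.univ.image f).card : ℝ) =
      ∑ i : Fin k, if ∀ l, l < i → f l ≠ f i then (1 : ℝ) else 0 := by
  classical
  have h1 : (Finset.univ.filter fun i : Fin k => ∀ l, l < i → f l ≠ f i).image f =
      Finset.univ.image f := by
    ext x
    simp only [Finset.mem_image, Finset.mem_filter, Finset.mem_univ, true_and]
    constructor
    · rintro ⟨i, -, hi⟩
      exact ⟨i, hi⟩
    · rintro ⟨i, hi⟩
      have hne : (Finset.univ.filter fun l : Fin k => f l = x).Nonempty := ⟨i, by simp [hi]⟩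
      obtain ⟨j, hj, hmin⟩ := Finset.exists_minimal hne
      have hj' : f j = x := (Finset.mem_filter.1 hj).2
      refine ⟨j, fun l hl e => ?_, hj'⟩
      exact absurd (hmin (Finset.mem_filter.2 ⟨Finset.mem_univ _, e.trans hj'⟩) hl.le)
        (not_le.2 hl)
  rw [← h1, Finset.card_image_of_injOn]
  · rw [Finset.sum_boole]
  · intro a ha b hb e
    have ha' := (Finset.mem_filter.1 (Finset.mem_coe.1 ha)).2
    have hb' := (Finset.mem_filter.1 (Finset.mem_coe.1 hb)).2
    rcases lt_trichotomy a b with hlt | he | hgt
    · exact absurd e (hb' a hlt)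
    · exact he
    · exact absurd e.symm (ha' b hgt)

/-- the number of the colours which are not used -/
private theorem wd2_free {q k : ℕ} (f : Fin k → Fin q) :
    (Nat.card {x : Fin q // ∀ i, x ≠ f i} : ℝ) =
      ((q : ℝ) - k) + ∑ i : Fin k, ∑ j : Fin k,
        if j < i ∧ f i = f j ∧ ∀ l, l < j → f l ≠ f j then (1 : ℝ) else 0 := by
  classical
  have h1 : Nat.card {x : Fin q // ∀ i, x ≠ f i} = q - (Finset.univ.image f).card := by
    rw [Nat.card_eq_fintype_card, Fintype.card_subtype]
    have : (Finset.univ.filter fun x : Fin q => ∀ i, x ≠ f i) = (Finset.univ.image f)ᶜ := by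
      ext x
      simp only [Finset.mem_filter, Finset.mem_univ, true_and, Finset.mem_compl,
        Finset.mem_image, not_exists]
      exact ⟨fun h i e => h i e.symm, fun h i e => h i e.symm⟩
    rw [this, Finset.card_compl, Fintype.card_fin]
  have h2 : (Finset.univ.image f).card ≤ q := by
    simpa using Finset.card_le_univ (Finset.univ.image f)
  rw [h1, Nat.cast_sub h2, wd2_first f]
  simp_rw [wd2_inner f]
  rw [Finset.sum_sub_distrib, Finset.sum_const, Finset.card_univ, Fintype.card_fin,
    nsmul_eq_mul, mul_one]
  ring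

open Classical in
/-- The recursion. A colouring `c` of `G` without `v` has `q - #(c '' neighbours)` extensions to
`v`, and `k - #(c '' neighbours)` is the number of the pairs `j < i` such that `c (u i) = c (u j)`
and `u j` is the first neighbour with this colour (`c (u l) ≠ c (u j)` for `l < j`). The pairs with
`u i`, `u j` adjacent contribute nothing, the others are counted by `ctr_count`. -/
theorem wd_count [Finite V] (G : SimpleGraph V) (v : V) (k : ℕ) (u : Fin k → V)
    (hu : Function.Injective u) (hr : Set.range u = G.neighborSet v) (q : ℕ) :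
    (Nat.card (G.Coloring (Fin q)) : ℝ) =
      ((q : ℝ) - k) * Nat.card ((delV G v).Coloring (Fin q)) +
      ∑ i : Fin k, ∑ j : Fin k, if j < i ∧ ¬ G.Adj (u i) (u j) then
        (Nat.card ((ctr G v (u i) (u j) (u '' {l | l < j})).Coloring (Fin q)) : ℝ) else 0 := by
  have hadj : ∀ i, G.Adj v (u i) := fun i => by
    have : u i ∈ G.neighborSet v := by rw [← hr]; exact ⟨i, rfl⟩
    exact this
  have hne : ∀ i, u i ≠ v := fun i => (hadj i).ne'
  haveI : Finite ((delV G v).Coloring (Fin q)) :=
    Finite.of_injective (fun c : (delV G v).Coloring (Fin q) => (c : {w : V // w ≠ v} → Fin q))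
      (fun a b h => RelHom.ext fun w => congrFun h w)
  haveI : Fintype ((delV G v).Coloring (Fin q)) := Fintype.ofFinite _
  haveI : Finite (G.Coloring (Fin q)) :=
    Finite.of_injective (fun c : G.Coloring (Fin q) => (c : V → Fin q))
      (fun a b h => RelHom.ext fun w => congrFun h w)
  let res : G.Coloring (Fin q) → (delV G v).Coloring (Fin q) := fun c =>
    SimpleGraph.Coloring.mk (fun w => c w.1) (fun {a b} h => c.valid h)
  have e2 : ∀ c : (delV G v).Coloring (Fin q), {d : G.Coloring (Fin q) // res d = c} ≃
      {x : Fin q // ∀ i, x ≠ c ⟨u i, hne i⟩} := fun c =>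
    { toFun := fun d => ⟨d.1 v, fun i e => d.1.valid (hadj i)
        (e.trans (congrArg (fun c' : (delV G v).Coloring (Fin q) => c' ⟨u i, hne i⟩) d.2).symm)⟩
      invFun := fun p => ⟨SimpleGraph.Coloring.mk
        (fun w => if h : w ≠ v then c ⟨w, h⟩ else p.1) (by
          intro a b h
          by_cases ha : a = v
          · subst ha
            have hb : b ≠ a := h.ne'
            obtain ⟨i, hi⟩ : b ∈ Set.range u := by rw [hr]; exact h
            subst hi
            show (if h : a ≠ a then _ else _) ≠ (if h : u i ≠ a then _ else _)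
            rw [dif_neg (not_not.2 rfl), dif_pos hb]
            exact p.2 i
          · by_cases hb : b = v
            · subst hb
              obtain ⟨i, hi⟩ : a ∈ Set.range u := by rw [hr]; exact h.symm
              subst hi
              show (if h : u i ≠ b then _ else _) ≠ (if h : b ≠ b then _ else _)
              rw [dif_neg (not_not.2 rfl), dif_pos ha]
              exact (p.2 i).symm
            · show (if h : a ≠ v then _ else _) ≠ (if h : b ≠ v then _ else _)
              rw [dif_pos ha, dif_pos hb]
              exact c.valid h), RelHom.ext fun w => dif_pos w.2⟩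
      left_inv := fun d => by
        obtain ⟨d, hd⟩ := d
        refine Subtype.ext (RelHom.ext fun w => ?_)
        by_cases hw : w = v
        · subst hw
          show (if h : w ≠ w then _ else _) = _
          rw [dif_neg (not_not.2 rfl)]
        · show (if h : w ≠ v then _ else _) = _
          rw [dif_pos hw]
          exact (congrArg (fun c' : (delV G v).Coloring (Fin q) => c' ⟨w, hw⟩) hd).symm
      right_inv := fun p => Subtype.ext (dif_neg (not_not.2 rfl)) }
  have h1 : (Nat.card (G.Coloring (Fin q)) : ℝ) = ∑ c : (delV G v).Coloring (Fin q),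
      (((q : ℝ) - k) + ∑ i : Fin k, ∑ j : Fin k,
        if j < i ∧ c ⟨u i, hne i⟩ = c ⟨u j, hne j⟩ ∧
          ∀ l, l < j → c ⟨u l, hne l⟩ ≠ c ⟨u j, hne j⟩ then (1 : ℝ) else 0) := by
    rw [Nat.card_congr (Equiv.sigmaFiberEquiv res).symm, Nat.card_sigma, Nat.cast_sum]
    refine Finset.sum_congr rfl fun c _ => ?_
    rw [Nat.card_congr (e2 c)]
    exact wd2_free fun i => c ⟨u i, hne i⟩
  rw [h1, Finset.sum_add_distrib, Finset.sum_const, Finset.card_univ, nsmul_eq_mul,
    ← Nat.card_eq_fintype_card, mul_comm]
  congr 1
  rw [Finset.sum_comm]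
  refine Finset.sum_congr rfl fun i _ => ?_
  rw [Finset.sum_comm]
  refine Finset.sum_congr rfl fun j _ => ?_
  by_cases hji : j < i
  · by_cases hA : G.Adj (u i) (u j)
    · rw [if_neg fun h => h.2 hA]
      refine Finset.sum_eq_zero fun c _ => if_neg ?_
      rintro ⟨-, h2, -⟩
      exact c.valid (show (delV G v).Adj ⟨u i, hne i⟩ ⟨u j, hne j⟩ from hA) h2
    · rw [if_pos ⟨hji, hA⟩, ctr_count G v (u i) (u j) (u '' {l | l < j}) (hne i) (hne j)
        (fun e => hji.ne' (hu e)) hA, Finset.sum_boole, Nat.card_eq_fintype_card,
        Fintype.card_subtype]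
      · congr 2
        ext c
        simp only [Finset.mem_filter, Finset.mem_univ, true_and]
        constructor
        · rintro ⟨-, h2, h3⟩
          refine ⟨h2, ?_⟩
          rintro ⟨l, hl⟩ ⟨l', hl', rfl⟩
          exact h3 l' hl'
        · rintro ⟨h2, h3⟩
          exact ⟨hji, h2, fun l hl => h3 ⟨u l, hne l⟩ ⟨l, hl, rfl⟩⟩
      · rintro ⟨l, -, hl⟩
        exact hne l hl
      · rintro ⟨l, hl, e⟩
        have : l = i := hu e
        subst this
        exact absurd (show l < j from hl) (not_lt.2 hji.le)
      · rintro ⟨l, hl, e⟩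
        have : l = j := hu e
        subst this
        exact absurd (show l < l from hl) (lt_irrefl _)
  · rw [if_neg fun h => hji h.1]
    exact Finset.sum_eq_zero fun c _ => if_neg fun h => hji h.1

end Pool.Agent.Rp
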