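import Pool.Agent.Lib.MP_dbdc94_co.Wm
import Pool.Agent.Lib.MP_dbdc94_co.Wd2
import Pool.Agent.Lib.MP_dbdc94_co.Glue2

/-!
# Project RP: graphs without a minor of minimum degree 5 (Woodall)
-/

set_option autoImplicit false

open Polynomial

namespace Pool.Agent.Rp

/-- Induction on the number of vertices. No vertices: one colouring, `P = 1`. Otherwise `G` is a
minor of itself, so there is a vertex `v` with `k ≤ 4` neighbours, enumerated by `u`. By `wd_count`
and `isChrom_unique`, `P = (X - k) * P' + ∑ P_ij` with the polynomials (`exists_isChrom`) of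
`delV G v` and of the graphs `ctr`, which have fewer vertices and no minor of minimum degree `5`
(`noFive_delV`, `noFive_ctr`); all terms are `≥ 0` at `x > 4`, the first one is positive. -/
theorem wood {V : Type} [Finite V] (G : SimpleGraph V) (h : NoFive G) (P : ℝ[X])
    (hP : IsChrom G P) (x : ℝ) (hx : 4 < x) : 0 < P.eval x := by
  suffices H : ∀ m : ℕ, ∀ (V : Type) [Finite V] (G : SimpleGraph V), Nat.card V = m → NoFive G →
      ∀ P : ℝ[X], IsChrom G P → 0 < P.eval x from H _ V G rfl h P hP
  intro m
  induction m using Nat.strong_induction_on with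
  | _ m ih =>
  intro V _ G hm h P hP
  rcases isEmpty_or_nonempty V with hV | hV
  · -- no vertices
    have h1 : IsChrom G 1 := by
      intro q
      rw [eval_one]
      have : Unique (G.Coloring (Fin q)) :=
        { default := ⟨fun v => hV.elim v, fun {a} => hV.elim a⟩
          uniq := fun f => RelHom.ext fun v => hV.elim v }
      rw [Nat.card_unique, Nat.cast_one]
    rw [isChrom_unique G P 1 hP h1, eval_one]
    exact one_pos
  · classical
    obtain ⟨v, hv⟩ := h V G (isMinor_refl G)
    let k : ℕ := Nat.card (G.neighborSet v)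
    have hk : k ≤ 4 := hv
    let e : Fin k ≃ G.neighborSet v := (Finite.equivFin (G.neighborSet v)).symm
    let u : Fin k → V := fun i => e i
    have hu : Function.Injective u := Subtype.val_injective.comp e.injective
    have hr : Set.range u = G.neighborSet v := by
      have h1 : u = Subtype.val ∘ e := rfl
      rw [h1, e.surjective.range_comp, Subtype.range_coe]
    have hadj : ∀ i, G.Adj v (u i) := fun i => (e i).2
    obtain ⟨P', hP'⟩ := exists_isChrom (delV G v)
    have hex : ∀ i j : Fin k, ∃ Q : ℝ[X], IsChrom (ctr G v (u i) (u j) (u '' {l | l < j})) Q :=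
      fun i j => exists_isChrom _
    choose Q hQ using hex
    have hlt1 : Nat.card {w : V // w ≠ v} < m := by
      rw [← hm]
      exact Finite.card_subtype_lt (x := v) (fun h => h rfl)
    have hlt2 : ∀ i, Nat.card {w : V // w ≠ v ∧ w ≠ u i} < m := by
      intro i
      rw [← hm]
      exact Finite.card_subtype_lt (x := v) (fun h => h.1 rfl)
    have hR : IsChrom G ((X - C (k : ℝ)) * P' +
        ∑ i : Fin k, ∑ j : Fin k, if j < i ∧ ¬ G.Adj (u i) (u j) then Q i j else 0) := by
      intro q
      rw [wd_count G v k u hu hr q, eval_add, eval_mul, eval_sub, eval_X, eval_C, hP' q,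
        eval_finsetSum]
      congr 1
      refine Finset.sum_congr rfl fun i _ => ?_
      rw [eval_finsetSum]
      refine Finset.sum_congr rfl fun j _ => ?_
      split_ifs with hij
      · exact hQ i j q
      · exact eval_zero
    rw [isChrom_unique G P _ hP hR, eval_add, eval_mul, eval_sub, eval_X, eval_C, eval_finsetSum]
    have h1 : 0 < P'.eval x := ih _ hlt1 _ (delV G v) rfl (noFive_delV G v h) P' hP'
    have hk' : (k : ℝ) ≤ 4 := by exact_mod_cast hk
    have h2 : 0 < (x - k) * P'.eval x := mul_pos (by linarith) h1
    refine add_pos_of_pos_of_nonneg h2 (Finset.sum_nonneg fun i _ => ?_)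
    rw [eval_finsetSum]
    refine Finset.sum_nonneg fun j _ => ?_
    split_ifs with hij
    · refine le_of_lt (ih _ (hlt2 i) _ _ rfl ?_ (Q i j) (hQ i j))
      refine noFive_ctr G v (u i) (u j) _ (fun h' => (ne_of_gt hij.1) (hu h')) (hadj i) (hadj j)
        ?_ h
      rintro l ⟨l', -, rfl⟩
      exact hadj l'
    · rw [eval_zero]

end Pool.Agent.Rp
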