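import Pool.Agent.Lib.MP_dbdc94_co.Ineq
import Pool.Agent.Lib.MP_dbdc94_co.Wood

/-!
# Project RP: the class of graphs obtained by repeated doubling
-/

set_option autoImplicit false

open Polynomial

namespace Pool.Agent.Rp

/-- Induction: `wood`, `isChrom_iso`, and for a double `refl_pos`: `0 < PNU(x)` gives
`0 < PNU(x) ^ 2 ≤ PNN(x) PUU(x)` and `0 ≤ PNN(x)`. -/
theorem kal_finite {V : Type} (G : SimpleGraph V) (h : Kal V G) : Finite V := by
  induction h with
  | base V hV G h => exact hV
  | iso V V' G G' e h ih => exact Finite.of_equiv V e.toEquiv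
  | double n X Y N U hN hU h ih =>
    have hX : Finite X := Finite.of_injective (fun x : X => (Sum.inr (Sum.inl x) : Fin n ⊕ (X ⊕ Y)))
      (Sum.inr_injective.comp Sum.inl_injective)
    infer_instance

theorem kal_pos {V : Type} (G : SimpleGraph V) (h : Kal V G) (P : ℝ[X]) (hP : IsChrom G P)
    (x : ℝ) (hx : 4 < x) : 0 < P.eval x := by
  induction h generalizing P with
  | base V hV G h => exact wood G h P hP x hx
  | iso V V' G G' e h ih => exact ih P (isChrom_iso G G' e P hP)
  | double n X Y N U hN hU h ih =>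
    have hf : Finite (Fin n ⊕ (X ⊕ Y)) := kal_finite _ h
    have hX : Finite X := Finite.of_injective (fun x : X => (Sum.inr (Sum.inl x) : Fin n ⊕ (X ⊕ Y)))
      (Sum.inr_injective.comp Sum.inl_injective)
    have hY : Finite Y := Finite.of_injective (fun y : Y => (Sum.inr (Sum.inr y) : Fin n ⊕ (X ⊕ Y)))
      (Sum.inr_injective.comp Sum.inr_injective)
    obtain ⟨PNU, h1⟩ := exists_isChrom (glue N U)
    obtain ⟨PUU, h3⟩ := exists_isChrom (glue U U)
    obtain ⟨h4, h5⟩ := refl_pos N U hN hU PNU P PUU h1 hP h3 x hx.le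
    have h6 := ih PNU h1
    have h7 : 0 < PNU.eval x ^ 2 := by positivity
    rcases h4.lt_or_eq with h8 | h8
    · exact h8
    · rw [← h8, zero_mul] at h5
      linarith

end Pool.Agent.Rp
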