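import Pool.Agent.Lib.MP_dbdc94_co.FrRel

/-!
# Project RP: sequences of operations

The vector of a sequence of insertions and duplications; the inner product of two such vectors of
length `n` is `x ^ k` where `k` depends on the two sequences only, not on the Frobenius algebra.
-/

set_option autoImplicit false

namespace Pool.Agent.Rp

/-- an insertion or a duplication -/
inductive Op : Type
  | i (j : ℕ) : Op
  | d (j : ℕ) : Op

/-- valid sequences (the last operation is the head of the list) with `n` points -/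
inductive Val : List Op → ℕ → Prop
  | nil : Val [] 0
  | i (s : List Op) (n j : ℕ) (h : Val s n) (hj : j ≤ n) : Val (Op.i j :: s) (n + 1)
  | d (s : List Op) (n j : ℕ) (h : Val s n) (hj : j < n) : Val (Op.d j :: s) (n + 1)

section
variable {S : Type} [Fintype S] [DecidableEq S] {x : ℝ} (F : Fr S x)

/-- the vector of a sequence -/
def vec : List Op → List S → ℝ
  | [] => fun l => if l.isEmpty then 1 else 0
  | Op.i j :: s => ins F j (vec s)
  | Op.d j :: s => dup F j (vec s)

private theorem sq_ins_supp (j : ℕ) : ∀ (p : ℕ → Prop) (g : List S → ℝ),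
    (∀ l, ¬ p (l.length + 1) → g l = 0) → ∀ l, ¬ p l.length → ins F j g l = 0 := by
  induction j with
  | zero =>
    intro p g hg l hl
    cases l with
    | nil => rfl
    | cons s l =>
      show F.η s * g l = 0
      rw [hg l hl, mul_zero]
  | succ j ih =>
    intro p g hg l hl
    cases l with
    | nil => rfl
    | cons s l =>
      exact ih (fun k => p (k + 1)) (fun l' => g (s :: l')) (fun l' h => hg (s :: l') h) l hl

private theorem sq_dup_supp (j : ℕ) : ∀ (p : ℕ → Prop) (g : List S → ℝ),
    (∀ l, ¬ p (l.length + 1) → g l = 0) → ∀ l, ¬ p l.length → dup F j g l = 0 := by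
  induction j with
  | zero =>
    intro p g hg l hl
    rcases l with _ | ⟨a, _ | ⟨b, l⟩⟩
    · rfl
    · rfl
    · show ∑ c, F.Δ a b c * g (c :: l) = 0
      refine Finset.sum_eq_zero fun c _ => ?_
      rw [hg (c :: l) hl, mul_zero]
  | succ j ih =>
    intro p g hg l hl
    cases l with
    | nil => rfl
    | cons s l =>
      exact ih (fun k => p (k + 1)) (fun l' => g (s :: l')) (fun l' h => hg (s :: l') h) l hl

private theorem sq_del_supp (j : ℕ) : ∀ (p : ℕ → Prop) (g : List S → ℝ),
    (∀ l, ¬ p l.length → g l = 0) → ∀ l, ¬ p (l.length + 1) → del F j g l = 0 := by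
  induction j with
  | zero =>
    intro p g hg l hl
    show ∑ s, F.η s * g (s :: l) = 0
    refine Finset.sum_eq_zero fun c _ => ?_
    rw [hg (c :: l) hl, mul_zero]
  | succ j ih =>
    intro p g hg l hl
    cases l with
    | nil => rfl
    | cons s l =>
      exact ih (fun k => p (k + 1)) (fun l' => g (s :: l')) (fun l' h => hg (s :: l') h) l hl

private theorem sq_mrg_supp (j : ℕ) : ∀ (p : ℕ → Prop) (g : List S → ℝ),
    (∀ l, ¬ p l.length → g l = 0) → ∀ l, ¬ p (l.length + 1) → mrg F j g l = 0 := by
  induction j with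
  | zero =>
    intro p g hg l hl
    cases l with
    | nil => rfl
    | cons c l =>
      show ∑ a, ∑ b, F.Δ a b c * g (a :: b :: l) = 0
      refine Finset.sum_eq_zero fun a _ => Finset.sum_eq_zero fun b _ => ?_
      rw [hg (a :: b :: l) hl, mul_zero]
  | succ j ih =>
    intro p g hg l hl
    cases l with
    | nil => rfl
    | cons s l =>
      exact ih (fun k => p (k + 1)) (fun l' => g (s :: l')) (fun l' h => hg (s :: l') h) l hl

/-- Induction on `Val` (all `f` at once: if `f` vanishes at all lists whose length is not `n`, then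
`ins F j f` and `dup F j f` vanish at all lists whose length is not `n + 1`, for `j ≤ n` resp.
`j < n`; induction on `j`). -/
theorem vec_supp {s : List Op} {n : ℕ} (h : Val s n) (l : List S) (hl : l.length ≠ n) :
    vec F s l = 0 := by
  induction h generalizing l with
  | nil =>
    cases l with
    | nil => exact absurd rfl hl
    | cons a l => rfl
  | i s n j h hj ih =>
    exact sq_ins_supp F j (fun k => k = n + 1) (vec F s) (fun l' h' => ih l' (by omega)) l hl
  | d s n j h hj ih =>
    exact sq_dup_supp F j (fun k => k = n + 1) (vec F s) (fun l' h' => ih l' (by omega)) l hl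

private theorem sq_del_vec_supp {s : List Op} {n : ℕ} (h : Val s (n + 1)) (j : ℕ) (l : List S)
    (hl : l.length ≠ n) : del F j (vec F s) l = 0 :=
  sq_del_supp F j (fun k => k = n + 1) (vec F s) (fun l' h' => vec_supp F h l' h') l (by omega)

private theorem sq_mrg_vec_supp {s : List Op} {n : ℕ} (h : Val s (n + 1)) (j : ℕ) (l : List S)
    (hl : l.length ≠ n) : mrg F j (vec F s) l = 0 :=
  sq_mrg_supp F j (fun k => k = n + 1) (vec F s) (fun l' h' => vec_supp F h l' h') l (by omega)

end

/-- Adjoint of an insertion. Induction on `s`, one of the relations `del_ins_self`, `del_ins_lt`,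
`del_ins_gt`, `del_dup_self`, `del_dup_succ`, `del_dup_lt`, `del_dup_gt` in each case
(`ins_mul`, `dup_mul` move the factor `x ^ c` outside; `vec_supp` for the lists of wrong length in
the cases `_self`, `_succ`). -/
theorem del_vec {s : List Op} {n : ℕ} (h : Val s (n + 1)) (j : ℕ) (hj : j ≤ n) :
    ∃ (s' : List Op) (c : ℕ), Val s' n ∧ ∀ (S : Type) [Fintype S] [DecidableEq S] (x : ℝ)
      (F : Fr S x), del F j (vec F s) = fun l => x ^ c * vec F s' l := by
  induction s generalizing n j with
  | nil => cases h
  | cons o s ih =>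
    cases h with
    | i _ _ i h0 hi =>
      rcases lt_trichotomy j i with hji | hji | hji
      · obtain ⟨i', rfl⟩ : ∃ i', i = i' + 1 := ⟨i - 1, by omega⟩
        obtain ⟨n', rfl⟩ : ∃ n', n = n' + 1 := ⟨n - 1, by omega⟩
        obtain ⟨s', c, hv, he⟩ := ih h0 j (by omega)
        refine ⟨Op.i i' :: s', c, Val.i s' n' i' hv (by omega), fun S _ _ x F => ?_⟩
        show del F j (ins F (i' + 1) (vec F s)) = fun l => x ^ c * ins F i' (vec F s') l
        rw [del_ins_lt F _ j i' (by omega), he S x F, ins_mul]
      · subst hji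
        refine ⟨s, 1, h0, fun S _ _ x F => ?_⟩
        funext l
        by_cases hl : l.length = n
        · show del F j (ins F j (vec F s)) l = x ^ 1 * vec F s l
          rw [del_ins_self F _ j l (by omega), pow_one]
        · rw [sq_del_vec_supp F (Val.i s n j h0 hi) j l hl, vec_supp F h0 l hl, mul_zero]
      · obtain ⟨j', rfl⟩ : ∃ j', j = j' + 1 := ⟨j - 1, by omega⟩
        obtain ⟨n', rfl⟩ : ∃ n', n = n' + 1 := ⟨n - 1, by omega⟩
        obtain ⟨s', c, hv, he⟩ := ih h0 j' (by omega)
        refine ⟨Op.i i :: s', c, Val.i s' n' i hv (by omega), fun S _ _ x F => ?_⟩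
        show del F (j' + 1) (ins F i (vec F s)) = fun l => x ^ c * ins F i (vec F s') l
        rw [del_ins_gt F _ j' i (by omega), he S x F, ins_mul]
    | d _ _ i h0 hi =>
      rcases lt_trichotomy j i with hji | hji | hji
      · obtain ⟨i', rfl⟩ : ∃ i', i = i' + 1 := ⟨i - 1, by omega⟩
        obtain ⟨n', rfl⟩ : ∃ n', n = n' + 1 := ⟨n - 1, by omega⟩
        obtain ⟨s', c, hv, he⟩ := ih h0 j (by omega)
        refine ⟨Op.d i' :: s', c, Val.d s' n' i' hv (by omega), fun S _ _ x F => ?_⟩
        show del F j (dup F (i' + 1) (vec F s)) = fun l => x ^ c * dup F i' (vec F s') l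
        rw [del_dup_lt F _ j i' (by omega), he S x F, dup_mul]
      · subst hji
        refine ⟨s, 0, h0, fun S _ _ x F => ?_⟩
        funext l
        by_cases hl : l.length = n
        · show del F j (dup F j (vec F s)) l = x ^ 0 * vec F s l
          rw [del_dup_self F _ j l (by omega), pow_zero, one_mul]
        · rw [sq_del_vec_supp F (Val.d s n j h0 hi) j l hl, vec_supp F h0 l hl, mul_zero]
      · rcases Nat.lt_or_ge (i + 1) j with hij | hij
        · obtain ⟨j', rfl⟩ : ∃ j', j = j' + 1 := ⟨j - 1, by omega⟩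
          obtain ⟨n', rfl⟩ : ∃ n', n = n' + 1 := ⟨n - 1, by omega⟩
          obtain ⟨s', c, hv, he⟩ := ih h0 j' (by omega)
          refine ⟨Op.d i :: s', c, Val.d s' n' i hv (by omega), fun S _ _ x F => ?_⟩
          show del F (j' + 1) (dup F i (vec F s)) = fun l => x ^ c * dup F i (vec F s') l
          rw [del_dup_gt F _ j' i (by omega), he S x F, dup_mul]
        · obtain rfl : j = i + 1 := by omega
          refine ⟨s, 0, h0, fun S _ _ x F => ?_⟩
          funext l
          by_cases hl : l.length = n
          · show del F (i + 1) (dup F i (vec F s)) l = x ^ 0 * vec F s l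
            rw [del_dup_succ F _ i l (by omega), pow_zero, one_mul]
          · rw [sq_del_vec_supp F (Val.d s n i h0 hi) (i + 1) l hl, vec_supp F h0 l hl, mul_zero]

/-- Adjoint of a duplication. Induction on `s`, one of the relations `mrg_ins_self`,
`mrg_ins_succ`, `mrg_ins_lt`, `mrg_ins_gt`, `mrg_dup_self`, `mrg_dup_succ`, `mrg_dup_pred`,
`mrg_dup_lt`, `mrg_dup_gt` in each case. -/
theorem mrg_vec {s : List Op} {n : ℕ} (h : Val s (n + 1)) (j : ℕ) (hj : j < n) :
    ∃ s' : List Op, Val s' n ∧ ∀ (S : Type) [Fintype S] [DecidableEq S] (x : ℝ)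
      (F : Fr S x), mrg F j (vec F s) = vec F s' := by
  induction s generalizing n j with
  | nil => cases h
  | cons o s ih =>
    cases h with
    | i _ _ i h0 hi =>
      rcases lt_trichotomy j i with hji | hji | hji
      · rcases Nat.lt_or_ge (j + 1) i with hij | hij
        · obtain ⟨i', rfl⟩ : ∃ i', i = i' + 1 := ⟨i - 1, by omega⟩
          obtain ⟨n', rfl⟩ : ∃ n', n = n' + 1 := ⟨n - 1, by omega⟩
          obtain ⟨s', hv, he⟩ := ih h0 j (by omega)
          refine ⟨Op.i i' :: s', Val.i s' n' i' hv (by omega), fun S _ _ x F => ?_⟩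
          show mrg F j (ins F (i' + 1) (vec F s)) = ins F i' (vec F s')
          rw [mrg_ins_gt F _ j i' (by omega), he S x F]
        · obtain rfl : i = j + 1 := by omega
          refine ⟨s, h0, fun S _ _ x F => ?_⟩
          funext l
          by_cases hl : l.length = n
          · exact mrg_ins_succ F _ j l (by omega)
          · rw [sq_mrg_vec_supp F (Val.i s n (j + 1) h0 hi) j l hl, vec_supp F h0 l hl]
      · subst hji
        refine ⟨s, h0, fun S _ _ x F => ?_⟩
        funext l
        by_cases hl : l.length = n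
        · exact mrg_ins_self F _ j l (by omega)
        · rw [sq_mrg_vec_supp F (Val.i s n j h0 hi) j l hl, vec_supp F h0 l hl]
      · obtain ⟨j', rfl⟩ : ∃ j', j = j' + 1 := ⟨j - 1, by omega⟩
        obtain ⟨n', rfl⟩ : ∃ n', n = n' + 1 := ⟨n - 1, by omega⟩
        obtain ⟨s', hv, he⟩ := ih h0 j' (by omega)
        refine ⟨Op.i i :: s', Val.i s' n' i hv (by omega), fun S _ _ x F => ?_⟩
        show mrg F (j' + 1) (ins F i (vec F s)) = ins F i (vec F s')
        rw [mrg_ins_lt F _ j' i (by omega), he S x F]
    | d _ _ i h0 hi =>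
      rcases lt_trichotomy j i with hji | hji | hji
      · rcases Nat.lt_or_ge (j + 1) i with hij | hij
        · obtain ⟨i', rfl⟩ : ∃ i', i = i' + 1 := ⟨i - 1, by omega⟩
          obtain ⟨n', rfl⟩ : ∃ n', n = n' + 1 := ⟨n - 1, by omega⟩
          obtain ⟨s', hv, he⟩ := ih h0 j (by omega)
          refine ⟨Op.d i' :: s', Val.d s' n' i' hv (by omega), fun S _ _ x F => ?_⟩
          show mrg F j (dup F (i' + 1) (vec F s)) = dup F i' (vec F s')
          rw [mrg_dup_gt F _ j i' (by omega), he S x F]
        · obtain rfl : i = j + 1 := by omega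
          obtain ⟨n', rfl⟩ : ∃ n', n = n' + 1 := ⟨n - 1, by omega⟩
          obtain ⟨s', hv, he⟩ := ih h0 j (by omega)
          refine ⟨Op.d j :: s', Val.d s' n' j hv (by omega), fun S _ _ x F => ?_⟩
          show mrg F j (dup F (j + 1) (vec F s)) = dup F j (vec F s')
          rw [mrg_dup_pred, he S x F]
      · subst hji
        refine ⟨s, h0, fun S _ _ x F => ?_⟩
        funext l
        by_cases hl : l.length = n
        · exact mrg_dup_self F _ j l (by omega)
        · rw [sq_mrg_vec_supp F (Val.d s n j h0 hi) j l hl, vec_supp F h0 l hl]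
      · rcases Nat.lt_or_ge (i + 1) j with hij | hij
        · obtain ⟨j', rfl⟩ : ∃ j', j = j' + 1 := ⟨j - 1, by omega⟩
          obtain ⟨n', rfl⟩ : ∃ n', n = n' + 1 := ⟨n - 1, by omega⟩
          obtain ⟨s', hv, he⟩ := ih h0 j' (by omega)
          refine ⟨Op.d i :: s', Val.d s' n' i hv (by omega), fun S _ _ x F => ?_⟩
          show mrg F (j' + 1) (dup F i (vec F s)) = dup F i (vec F s')
          rw [mrg_dup_lt F _ j' i (by omega), he S x F]
        · obtain rfl : j = i + 1 := by omega
          obtain ⟨n', rfl⟩ : ∃ n', n = n' + 1 := ⟨n - 1, by omega⟩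
          obtain ⟨s', hv, he⟩ := ih h0 i (by omega)
          refine ⟨Op.d i :: s', Val.d s' n' i hv (by omega), fun S _ _ x F => ?_⟩
          show mrg F (i + 1) (dup F i (vec F s)) = dup F i (vec F s')
          rw [mrg_dup_succ, he S x F]

/-- Induction on `s` with `ip_ins`, `del_vec`, `ip_mul_right`, and `ip_dup`, `mrg_vec`. -/
theorem seq_gram {s t : List Op} {n : ℕ} (hs : Val s n) (ht : Val t n) :
    ∃ k : ℕ, ∀ (S : Type) [Fintype S] [DecidableEq S] (x : ℝ) (F : Fr S x),
      ip n (vec F s) (vec F t) = x ^ k := by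
  induction hs generalizing t with
  | nil =>
    cases ht
    refine ⟨0, fun S _ _ x F => ?_⟩
    show (1 : ℝ) * 1 = x ^ 0
    rw [pow_zero, mul_one]
  | i s n j h hj ih =>
    obtain ⟨t', c, hv, he⟩ := del_vec ht j hj
    obtain ⟨k, hk⟩ := ih hv
    refine ⟨c + k, fun S _ _ x F => ?_⟩
    show ip (n + 1) (ins F j (vec F s)) (vec F t) = _
    rw [ip_ins F _ _ n j hj, he S x F, ip_mul_right, hk S x F, pow_add]
  | d s n j h hj ih =>
    obtain ⟨t', hv, he⟩ := mrg_vec ht j hj
    obtain ⟨k, hk⟩ := ih hv
    refine ⟨k, fun S _ _ x F => ?_⟩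
    show ip (n + 1) (dup F j (vec F s)) (vec F t) = _
    rw [ip_dup F _ _ n j hj, he S x F, hk S x F]

end Pool.Agent.Rp
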