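import Pool.Agent.Lib.MP_dbdc94_co.Defs

/-!
# Project RP: deletion of a vertex (Woodall)

`v` is a vertex of the finite graph `G` with the neighbours `u 0, …, u (k - 1)`.
-/

set_option autoImplicit false

namespace Pool.Agent.Rp

variable {V : Type}

/-- `G` without the vertex `v` -/
abbrev delV (G : SimpleGraph V) (v : V) : SimpleGraph {w : V // w ≠ v} :=
  G.comap Subtype.val

/-- `G` without `v` and `a`, the edges from `a` now start at `b`, and `b` is joined to `L` -/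
def ctr (G : SimpleGraph V) (v a b : V) (L : Set V) : SimpleGraph {w : V // w ≠ v ∧ w ≠ a} where
  Adj p q := p ≠ q ∧ (G.Adj p q ∨ (p.1 = b ∧ (G.Adj a q ∨ q.1 ∈ L)) ∨
    (q.1 = b ∧ (G.Adj a p ∨ p.1 ∈ L)))
  symm := ⟨fun p q h => by
    obtain ⟨h1, h2 | h2 | h2⟩ := h
    · exact ⟨h1.symm, Or.inl h2.symm⟩
    · exact ⟨h1.symm, Or.inr (Or.inr h2)⟩
    · exact ⟨h1.symm, Or.inr (Or.inl h2)⟩⟩
  loopless := ⟨fun p h => h.1 rfl⟩

/-- Colourings of `ctr`: the colourings `c` of `G` without `v` with `c a = c b` and `c b ≠ c l` for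
all `l ∈ L`. -/
theorem ctr_count [Finite V] (G : SimpleGraph V) (v a b : V) (L : Set V) (hav : a ≠ v)
    (hbv : b ≠ v) (hab : a ≠ b) (hadj : ¬ G.Adj a b) (hLv : v ∉ L) (hLa : a ∉ L) (hLb : b ∉ L)
    (q : ℕ) :
    Nat.card ((ctr G v a b L).Coloring (Fin q)) =
      Nat.card {c : (delV G v).Coloring (Fin q) // c ⟨a, hav⟩ = c ⟨b, hbv⟩ ∧
        ∀ l : {w : V // w ≠ v}, l.1 ∈ L → c l ≠ c ⟨b, hbv⟩} := by
  classical
  let toC : (ctr G v a b L).Coloring (Fin q) → V → Fin q := fun d w =>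
    if h : w ≠ v ∧ w ≠ a then d ⟨w, h⟩ else d ⟨b, hbv, hab.symm⟩
  have toC_of : ∀ (d : (ctr G v a b L).Coloring (Fin q)) (w : V) (h : w ≠ v ∧ w ≠ a),
      toC d w = d ⟨w, h⟩ := fun d w h => dif_pos h
  have toC_a : ∀ d : (ctr G v a b L).Coloring (Fin q), toC d a = d ⟨b, hbv, hab.symm⟩ :=
    fun d => dif_neg fun h => h.2 rfl
  have toC_b : ∀ d : (ctr G v a b L).Coloring (Fin q), toC d b = d ⟨b, hbv, hab.symm⟩ :=
    fun d => toC_of d b ⟨hbv, hab.symm⟩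
  have key : ∀ (d : (ctr G v a b L).Coloring (Fin q)) (y : V) (hy : y ≠ v), G.Adj a y →
      toC d a ≠ toC d y := by
    intro d y hy h
    have hya : y ≠ a := fun e => G.loopless.irrefl a (by rw [e] at h; exact h)
    have hyb : y ≠ b := fun e => hadj (by rw [e] at h; exact h)
    rw [toC_a, toC_of d y ⟨hy, hya⟩]
    refine d.valid ⟨fun e => hyb (congrArg Subtype.val e).symm, Or.inr (Or.inl ⟨rfl, Or.inl h⟩)⟩
  refine Nat.card_congr ⟨fun d => ⟨SimpleGraph.Coloring.mk (fun w => toC d w.1) ?_, ?_, ?_⟩,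
    fun c => SimpleGraph.Coloring.mk (fun w => c.1 ⟨w.1, w.2.1⟩) ?_, ?_, ?_⟩
  · rintro ⟨x, hx⟩ ⟨y, hy⟩ h
    have h : G.Adj x y := h
    show toC d x ≠ toC d y
    by_cases hxa : x = a
    · subst hxa
      exact key d y hy h
    · by_cases hya : y = a
      · subst hya
        exact (key d x hx h.symm).symm
      · rw [toC_of d x ⟨hx, hxa⟩, toC_of d y ⟨hy, hya⟩]
        exact d.valid ⟨fun e => h.ne (congrArg Subtype.val e), Or.inl h⟩
  · show toC d a = toC d b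
    rw [toC_a, toC_b]
  · rintro ⟨l, hl⟩ hlL
    show toC d l ≠ toC d b
    have hla : l ≠ a := fun e => hLa (by rw [← e]; exact hlL)
    have hlb : l ≠ b := fun e => hLb (by rw [← e]; exact hlL)
    rw [toC_b, toC_of d l ⟨hl, hla⟩]
    exact d.valid ⟨fun e => hlb (congrArg Subtype.val e), Or.inr (Or.inr ⟨rfl, Or.inr hlL⟩)⟩
  · rintro ⟨x, hx⟩ ⟨y, hy⟩ ⟨hne, h⟩
    show c.1 ⟨x, hx.1⟩ ≠ c.1 ⟨y, hy.1⟩
    have hb : ∀ (z : V) (hz : z ≠ v), (G.Adj a z ∨ z ∈ L) → c.1 ⟨b, hbv⟩ ≠ c.1 ⟨z, hz⟩ := by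
      rintro z hz (h1 | h1)
      · rw [← c.2.1]
        exact c.1.valid h1
      · exact (c.2.2 ⟨z, hz⟩ h1).symm
    rcases h with h | ⟨h1, h2⟩ | ⟨h1, h2⟩
    · exact c.1.valid h
    · have h1 : x = b := h1
      subst h1
      exact hb y hy.1 h2
    · have h1 : y = b := h1
      subst h1
      exact (hb x hx.1 h2).symm
  · intro d
    refine RelHom.ext fun w => ?_
    show toC d w.1 = d w
    exact toC_of d w.1 w.2
  · intro c
    refine Subtype.ext (RelHom.ext fun w => ?_)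
    obtain ⟨w, hw⟩ := w
    show toC _ w = c.1 ⟨w, hw⟩
    by_cases hwa : w = a
    · subst hwa
      rw [toC_a]
      exact c.2.1.symm
    · rw [toC_of _ w ⟨hw, hwa⟩]
      rfl

end Pool.Agent.Rp
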