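import Pool.Agent.Lib.MP_dbdc94_co.Wd

/-!
# Project RP: minors of the smaller graphs
-/

set_option autoImplicit false

namespace Pool.Agent.Rp

variable {V : Type}

/-- branch sets `{v}` -/
theorem isMinor_refl (G : SimpleGraph V) : IsMinor G G := by
  refine ⟨fun i => {i}, fun i => ?_, fun i j hij => ?_, fun i j h => ?_⟩
  · refine (SimpleGraph.connected_iff _).2 ⟨?_, ⟨⟨i, rfl⟩⟩⟩
    rintro ⟨x, hx⟩ ⟨y, hy⟩
    have hx' : x = i := hx
    have hy' : y = i := hy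
    subst hx'
    subst hy'
    exact SimpleGraph.Reachable.refl _
  · rw [Set.disjoint_singleton]
    exact hij
  · exact ⟨i, rfl, j, rfl, h⟩

/-- branch sets: images under `Subtype.val` -/
theorem noFive_delV (G : SimpleGraph V) (v : V) (h : NoFive G) : NoFive (delV G v) := by
  intro W _ _ H hH
  apply h W H
  obtain ⟨f, hf1, hf2, hf3⟩ := hH
  refine ⟨fun i => Subtype.val '' f i, fun i => ?_, fun i j hij => ?_, fun i j hij => ?_⟩
  · obtain ⟨hp, ⟨⟨x₀, hx₀⟩⟩⟩ := (SimpleGraph.connected_iff _).1 (hf1 i)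
    refine (SimpleGraph.connected_iff _).2 ⟨?_, ⟨⟨x₀.1, x₀, hx₀, rfl⟩⟩⟩
    rintro ⟨x, x', hx, rfl⟩ ⟨y, y', hy, rfl⟩
    let φ : (delV G v).induce (f i) →g G.induce (Subtype.val '' f i) :=
      ⟨fun p => ⟨p.1.1, p.1, p.2, rfl⟩, fun {p q} hpq => hpq⟩
    exact (hp ⟨x', hx⟩ ⟨y', hy⟩).map φ
  · rw [Set.disjoint_image_iff Subtype.val_injective]
    exact hf2 i j hij
  · obtain ⟨u, hu, w, hw, huw⟩ := hf3 i j hij
    exact ⟨u.1, ⟨u, hu, rfl⟩, w.1, ⟨w, hw, rfl⟩, huw⟩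

/-- the branch set in `G` of a branch set of `ctr G v a b L` -/
def wmF (v a b : V) (T : Set {w : V // w ≠ v ∧ w ≠ a}) : Set V :=
  {x | (∃ h : x ≠ v ∧ x ≠ a, (⟨x, h⟩ : {w : V // w ≠ v ∧ w ≠ a}) ∈ T) ∨
    ((x = v ∨ x = a) ∧ ∃ h : b ≠ v ∧ b ≠ a, (⟨b, h⟩ : {w : V // w ≠ v ∧ w ≠ a}) ∈ T)}

theorem wm_mem {v a b : V} {T : Set {w : V // w ≠ v ∧ w ≠ a}} {p : {w : V // w ≠ v ∧ w ≠ a}}
    (hp : p ∈ T) : p.1 ∈ wmF v a b T := Or.inl ⟨p.2, hp⟩

theorem wm_v {v a b : V} {T : Set {w : V // w ≠ v ∧ w ≠ a}} {p : {w : V // w ≠ v ∧ w ≠ a}}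
    (hp : p ∈ T) (hb : p.1 = b) : v ∈ wmF v a b T := by
  subst hb
  exact Or.inr ⟨Or.inl rfl, p.2, hp⟩

theorem wm_a {v a b : V} {T : Set {w : V // w ≠ v ∧ w ≠ a}} {p : {w : V // w ≠ v ∧ w ≠ a}}
    (hp : p ∈ T) (hb : p.1 = b) : a ∈ wmF v a b T := by
  subst hb
  exact Or.inr ⟨Or.inr rfl, p.2, hp⟩

theorem wm_reach1 (G : SimpleGraph V) {S : Set V} {x y : V} (hx : x ∈ S) (hy : y ∈ S)
    (h : G.Adj x y) : (G.induce S).Reachable ⟨x, hx⟩ ⟨y, hy⟩ :=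
  SimpleGraph.Adj.reachable (show (G.induce S).Adj ⟨x, hx⟩ ⟨y, hy⟩ from h)

/-- one edge of `ctr` -/
theorem wm_edge (G : SimpleGraph V) (v a b : V) (L : Set V) (ha : G.Adj v a) (hb : G.Adj v b)
    (hL : ∀ l ∈ L, G.Adj v l) {T : Set {w : V // w ≠ v ∧ w ≠ a}}
    {p q : {w : V // w ≠ v ∧ w ≠ a}} (hp : p ∈ T) (hq : q ∈ T) (h : (ctr G v a b L).Adj p q) :
    (G.induce (wmF v a b T)).Reachable ⟨p.1, wm_mem hp⟩ ⟨q.1, wm_mem hq⟩ := by
  have key : ∀ {p q : {w : V // w ≠ v ∧ w ≠ a}} (hp : p ∈ T) (hq : q ∈ T), p.1 = b →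
      (G.Adj a q ∨ q.1 ∈ L) →
      (G.induce (wmF v a b T)).Reachable ⟨p.1, wm_mem hp⟩ ⟨q.1, wm_mem hq⟩ := by
    intro p q hp hq hpb h
    have h1 : (G.induce (wmF v a b T)).Reachable ⟨p.1, wm_mem hp⟩ ⟨v, wm_v hp hpb⟩ :=
      wm_reach1 G _ _ (by rw [hpb]; exact hb.symm)
    rcases h with h | h
    · exact (h1.trans (wm_reach1 G _ (wm_a hp hpb) ha)).trans (wm_reach1 G _ _ h)
    · exact h1.trans (wm_reach1 G _ _ (hL _ h))
  obtain ⟨-, h | ⟨h1, h2⟩ | ⟨h1, h2⟩⟩ := h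
  · exact wm_reach1 G _ _ h
  · exact key hp hq h1 h2
  · exact (key hq hp h1 h2).symm

theorem wm_walk (G : SimpleGraph V) (v a b : V) (L : Set V) (ha : G.Adj v a) (hb : G.Adj v b)
    (hL : ∀ l ∈ L, G.Adj v l) {T : Set {w : V // w ≠ v ∧ w ≠ a}} {p q : T}
    (h : ((ctr G v a b L).induce T).Reachable p q) :
    (G.induce (wmF v a b T)).Reachable ⟨p.1.1, wm_mem p.2⟩ ⟨q.1.1, wm_mem q.2⟩ := by
  obtain ⟨w⟩ := h
  induction w with
  | nil => exact SimpleGraph.Reachable.refl _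
  | @cons u v' _ h _ ih => exact (wm_edge G v a b L ha hb hL u.2 v'.2 h).trans ih

/-- A minor of `ctr G v a b L` is a minor of `G`: take the images of the branch sets under
`Subtype.val`, and add `v` and `a` to the branch set which contains `b` (if there is one). It stays
connected: `v` is adjacent to `a` and to `b` and to all elements of `L`, an edge of `ctr` between `b`
and `w` which is not an edge of `G` comes from an edge between `a` and `w` or between `v` and `w`. -/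
theorem noFive_ctr (G : SimpleGraph V) (v a b : V) (L : Set V) (hab : a ≠ b)
    (ha : G.Adj v a) (hb : G.Adj v b) (hL : ∀ l ∈ L, G.Adj v l) (h : NoFive G) :
    NoFive (ctr G v a b L) := by
  intro W _ _ H hH
  apply h W H
  obtain ⟨f, hf1, hf2, hf3⟩ := hH
  refine ⟨fun i => wmF v a b (f i), fun i => ?_, fun i j hij => ?_, fun i j hij => ?_⟩
  · obtain ⟨hp, ⟨⟨x₀, hx₀⟩⟩⟩ := (SimpleGraph.connected_iff _).1 (hf1 i)
    refine (SimpleGraph.connected_iff _).2 ⟨?_, ⟨⟨x₀.1, wm_mem hx₀⟩⟩⟩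
    have hto : ∀ x : wmF v a b (f i),
        (G.induce (wmF v a b (f i))).Reachable x ⟨x₀.1, wm_mem hx₀⟩ := by
      rintro ⟨x, hx⟩
      have hx' := hx
      rcases hx' with ⟨h1, h2⟩ | ⟨h1, hbT, h2⟩
      · exact wm_walk G v a b L ha hb hL (hp ⟨⟨x, h1⟩, h2⟩ ⟨x₀, hx₀⟩)
      · have hbr : (G.induce (wmF v a b (f i))).Reachable ⟨b, wm_mem h2⟩ ⟨x₀.1, wm_mem hx₀⟩ :=
          wm_walk G v a b L ha hb hL (hp ⟨⟨b, hbT⟩, h2⟩ ⟨x₀, hx₀⟩)
        have hv : (G.induce (wmF v a b (f i))).Reachable ⟨v, wm_v h2 rfl⟩ ⟨x₀.1, wm_mem hx₀⟩ :=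
          (wm_reach1 G _ _ hb).trans hbr
        rcases h1 with h1 | h1
        · subst h1
          exact hv
        · subst h1
          exact (wm_reach1 G _ _ ha.symm).trans hv
    intro x y
    exact (hto x).trans (hto y).symm
  · rw [Set.disjoint_left]
    have hd := Set.disjoint_left.1 (hf2 i j hij)
    rintro x (⟨h1, h2⟩ | ⟨h1, h1', h2⟩) (⟨h3, h4⟩ | ⟨h3, h3', h4⟩)
    · exact hd h2 h4
    · rcases h3 with h3 | h3
      · exact h1.1 h3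
      · exact h1.2 h3
    · rcases h1 with h1 | h1
      · exact h3.1 h1
      · exact h3.2 h1
    · exact hd h2 h4
  · obtain ⟨u, hu, w, hw, -, huw | ⟨h1, h2⟩ | ⟨h1, h2⟩⟩ := hf3 i j hij
    · exact ⟨u.1, wm_mem hu, w.1, wm_mem hw, huw⟩
    · rcases h2 with h2 | h2
      · exact ⟨a, wm_a hu h1, w.1, wm_mem hw, h2⟩
      · exact ⟨v, wm_v hu h1, w.1, wm_mem hw, hL _ h2⟩
    · rcases h2 with h2 | h2
      · exact ⟨u.1, wm_mem hu, a, wm_a hw h1, h2.symm⟩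
      · exact ⟨u.1, wm_mem hu, v, wm_v hw h1, (hL _ h2).symm⟩

end Pool.Agent.Rp
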